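/-
Every absolutely continuous probability law on a bounded interval is `n`-completely mixable for all
large `n`.

Outline of the argument.
* `exists_coupling` (linear programming duality: M. Riesz extension + Riesz-Markov-Kakutani):
  it suffices to show `0 ≤ ∫ g dμ` for each bounded continuous `g` with `0 ≤ ∑ g (x i)` for all
  `x` in `[a,b]^n` with `∑ x i = n m`, where `m` is the mean of `μ`.
* `support_line`: subtracting an affine function, `g = h + α (x - m) - t` with `h ≥ 0` on `[a,b]`
  and `h u = h v = 0` for some `u ≤ m ≤ v`.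
* Fill most of the coordinates with copies of `u` and `v`; the remaining boundedly many coordinates
  are pairs of points near density points `x₀ < m` and `y₀ > m` of the law. This forces the
  sum of `h` over the pairs to be at least `n t` (`dual_main`), and `pair_lemma` turns this into
  `n t ≤ C ∫ h dμ` with `C` independent of `n` and `g`, so that `∫ g dμ ≥ 0` once `n ≥ C`.
-/
import Mathlib

set_option autoImplicit false

open MeasureTheory Set Topology Filter BoundedContinuousFunction
open scoped ENNReal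

namespace Pool.Agent.CM98


/-- Supporting line of a continuous function over `[a,b]` at an interior point `m`, touching the
graph at one point on each side of `m`. -/
theorem support_line {a b m : ℝ} (ham : a < m) (hmb : m < b) (g : ℝ → ℝ) (hg : Continuous g) :
    ∃ α t u v : ℝ, u ∈ Icc a m ∧ v ∈ Icc m b ∧
      (∀ x ∈ Icc a b, 0 ≤ g x - α * (x - m) + t) ∧
      g u - α * (u - m) + t = 0 ∧ g v - α * (v - m) + t = 0 := by
  set K : Set (ℝ × ℝ × ℝ) :=
    (Icc 0 1 ×ˢ (Icc a m ×ˢ Icc m b)) ∩ {p | p.1 * p.2.1 + (1 - p.1) * p.2.2 = m} with hK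
  have hKc : IsCompact K := by
    apply IsCompact.inter_right
    · exact isCompact_Icc.prod (isCompact_Icc.prod isCompact_Icc)
    · exact isClosed_eq (by fun_prop) continuous_const
  have hKne : K.Nonempty := ⟨(0, m, m), by
    simp only [hK, mem_inter_iff, mem_prod, mem_Icc, mem_ofPred_eq]
    refine ⟨⟨⟨le_refl _, zero_le_one⟩, ⟨ham.le, le_refl _⟩, le_refl _, hmb.le⟩, by ring⟩⟩
  set F : ℝ × ℝ × ℝ → ℝ := fun p => p.1 * g p.2.1 + (1 - p.1) * g p.2.2 with hF
  have hFc : Continuous F := by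
    simp only [hF]; fun_prop
  obtain ⟨p, hpK, hpmin⟩ := hKc.exists_isMinOn hKne hFc.continuousOn
  set s := F p with hs
  have hmin : ∀ q ∈ K, s ≤ F q := fun q hq => hpmin hq
  -- value at `m`
  have hgm : s ≤ g m := by
    have := hmin (0, m, m) (by
      simp only [hK, mem_inter_iff, mem_prod, mem_Icc, mem_ofPred_eq]
      exact ⟨⟨⟨le_refl _, zero_le_one⟩, ⟨ham.le, le_refl _⟩, le_refl _, hmb.le⟩, by ring⟩)
    simpa [hF] using this
  -- chord inequality
  have hchord : ∀ y ∈ Ico a m, ∀ x ∈ Ioc m b,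
      0 ≤ (x - m) * (g y - s) + (m - y) * (g x - s) := by
    intro y hy x hx
    have hxy : 0 < x - y := by linarith [hy.2, hx.1]
    have h1 := hmin ((x - m) / (x - y), y, x) (by
      simp only [hK, mem_inter_iff, mem_prod, mem_Icc, mem_ofPred_eq]
      refine ⟨⟨⟨div_nonneg (by linarith [hx.1]) hxy.le, ?_⟩, ⟨hy.1, hy.2.le⟩, hx.1.le, hx.2⟩, ?_⟩
      · rw [div_le_one hxy]; linarith [hy.2]
      · field_simp; ring)
    simp only [hF] at h1
    have h2 : (x - y) * ((x - m) / (x - y) * g y + (1 - (x - m) / (x - y)) * g x)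
        = (x - m) * g y + (m - y) * g x := by
      field_simp; ring
    have h3 := mul_le_mul_of_nonneg_left h1 hxy.le
    rw [h2] at h3
    nlinarith
  -- the slope
  set α := sInf ((fun x => (g x - s) / (x - m)) '' Ioc m b) with hα
  have hne : ((fun x => (g x - s) / (x - m)) '' Ioc m b).Nonempty :=
    ⟨_, mem_image_of_mem _ (right_mem_Ioc.2 hmb)⟩
  have hlow : ∀ y ∈ Ico a m, ∀ z ∈ ((fun x => (g x - s) / (x - m)) '' Ioc m b),
      (g y - s) / (y - m) ≤ z := by
    rintro y hy _ ⟨x, hx, rfl⟩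
    have h := hchord y hy x hx
    have hx' : 0 < x - m := by linarith [hx.1]
    have hy' : 0 < m - y := by linarith [hy.2]
    have : (g y - s) / (y - m) = -((g y - s) / (m - y)) := by
      rw [show y - m = -(m - y) by ring, div_neg]
    rw [this, neg_le_iff_add_nonneg]
    have : (g x - s) / (x - m) + (g y - s) / (m - y)
        = ((x - m) * (g y - s) + (m - y) * (g x - s)) / ((x - m) * (m - y)) := by
      field_simp; ring
    show 0 ≤ (g x - s) / (x - m) + (g y - s) / (m - y)
    rw [this]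
    positivity
  have hbdd : BddBelow ((fun x => (g x - s) / (x - m)) '' Ioc m b) :=
    ⟨(g a - s) / (a - m), fun z hz => hlow a (left_mem_Ico.2 ham) z hz⟩
  have hpos : ∀ x ∈ Icc a b, 0 ≤ g x - α * (x - m) + (-s) := by
    intro x hx
    rcases lt_trichotomy x m with h | h | h
    · have h1 : (g x - s) / (x - m) ≤ α :=
        le_csInf hne (fun z hz => hlow x ⟨hx.1, h⟩ z hz)
      have hxm : x - m < 0 := by linarith
      rw [div_le_iff_of_neg hxm] at h1
      linarith
    · subst h; simp; linarith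
    · have h1 : α ≤ (g x - s) / (x - m) := csInf_le hbdd (mem_image_of_mem _ ⟨h, hx.2⟩)
      have hxm : 0 < x - m := by linarith
      rw [le_div_iff₀ hxm] at h1
      linarith
  obtain ⟨⟨⟨hl0, hl1⟩, hu, hv⟩, hbar⟩ := hpK
  simp only [mem_ofPred_eq] at hbar hu hv hl0 hl1
  have hu' : p.2.1 ∈ Icc a b := ⟨hu.1, hu.2.trans hmb.le⟩
  have hv' : p.2.2 ∈ Icc a b := ⟨ham.le.trans hv.1, hv.2⟩
  have hm' : m ∈ Icc a b := ⟨ham.le, hmb.le⟩
  have hu0 := hpos _ hu'
  have hv0 := hpos _ hv'
  have hm0 := hpos _ hm'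
  have hsum : p.1 * (g p.2.1 - α * (p.2.1 - m) + (-s))
      + (1 - p.1) * (g p.2.2 - α * (p.2.2 - m) + (-s)) = 0 := by
    have : s = p.1 * g p.2.1 + (1 - p.1) * g p.2.2 := rfl
    have e : p.1 * (g p.2.1 - α * (p.2.1 - m) + (-s))
      + (1 - p.1) * (g p.2.2 - α * (p.2.2 - m) + (-s))
      = (p.1 * g p.2.1 + (1 - p.1) * g p.2.2) - s
        - α * (p.1 * p.2.1 + (1 - p.1) * p.2.2 - m) := by ring
    rw [e, hbar, ← this]; ring
  rcases eq_or_lt_of_le hl0 with h0 | h0
  · -- weight zero: `v = m`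
    have hvm : p.2.2 = m := by rw [← h0] at hbar; linarith
    have hz : g m - α * (m - m) + (-s) = 0 := by
      rw [← h0, hvm] at hsum; linarith
    exact ⟨α, -s, m, m, ⟨ham.le, le_refl _⟩, ⟨le_refl _, hmb.le⟩, hpos, hz, hz⟩
  · rcases eq_or_lt_of_le hl1 with h1 | h1
    · have hum : p.2.1 = m := by rw [h1] at hbar; linarith
      have hz : g m - α * (m - m) + (-s) = 0 := by
        rw [h1, hum] at hsum; linarith
      exact ⟨α, -s, m, m, ⟨ham.le, le_refl _⟩, ⟨le_refl _, hmb.le⟩, hpos, hz, hz⟩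
    · have hA : 0 ≤ p.1 * (g p.2.1 - α * (p.2.1 - m) + (-s)) := mul_nonneg hl0 hu0
      have hB : 0 ≤ (1 - p.1) * (g p.2.2 - α * (p.2.2 - m) + (-s)) :=
        mul_nonneg (by linarith) hv0
      have hA0 : p.1 * (g p.2.1 - α * (p.2.1 - m) + (-s)) = 0 := by linarith
      have hB0 : (1 - p.1) * (g p.2.2 - α * (p.2.2 - m) + (-s)) = 0 := by linarith
      refine ⟨α, -s, p.2.1, p.2.2, hu, hv, hpos, ?_, ?_⟩
      · rcases mul_eq_zero.1 hA0 with h | h
        · exact absurd h h0.ne'
        · exact h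
      · rcases mul_eq_zero.1 hB0 with h | h
        · exfalso; linarith
        · exact h



/-- A positive linear functional on `C(T, ℝ)`, `T` compact, is integration against a measure. -/
theorem exists_measure_of_positive {T : Type*} [TopologicalSpace T] [CompactSpace T] [T2Space T]
    [MeasurableSpace T] [BorelSpace T] (G : C(T, ℝ) →ₗ[ℝ] ℝ)
    (hG : ∀ φ : C(T, ℝ), 0 ≤ φ → 0 ≤ G φ) :
    ∃ ν : Measure T, IsFiniteMeasure ν ∧ ∀ φ : C(T, ℝ), ∫ x, φ x ∂ν = G φ := by
  let L : CompactlySupportedContinuousMap T ℝ →ₗ[ℝ] ℝ :=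
    { toFun := fun f => G f.toContinuousMap
      map_add' := fun f g => by
        have : (f + g).toContinuousMap = f.toContinuousMap + g.toContinuousMap := rfl
        rw [this, map_add]
      map_smul' := fun c f => by
        have : (c • f).toContinuousMap = c • f.toContinuousMap := rfl
        rw [this, map_smul]; rfl }
  let Λ := PositiveLinearMap.mk₀ L (fun f hf => hG _ (by
    have h' := CompactlySupportedContinuousMap.le_def.1 hf
    exact ContinuousMap.le_def.2 fun x => h' x))
  refine ⟨RealRMK.rieszMeasure Λ, inferInstance, fun φ => ?_⟩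
  have := RealRMK.integral_rieszMeasure Λ (CompactlySupportedContinuousMap.continuousMapEquiv φ)
  exact this

/-- Duality for joint laws with prescribed marginals, all equal to `μ`, concentrated on a compact
set `T` that is stable under cyclic shifts of the coordinates. -/
theorem exists_coupling {n : ℕ} (hn : 0 < n) (μ : Measure ℝ) [IsProbabilityMeasure μ]
    (T : Set (Fin n → ℝ)) (hT : IsCompact T)
    (hshift : ∀ x ∈ T, ∀ σ : Equiv.Perm (Fin n), (fun i => x (σ i)) ∈ T)
    (hdual : ∀ g : ℝ →ᵇ ℝ, (∀ x ∈ T, 0 ≤ ∑ i, g (x i)) → 0 ≤ ∫ y, g y ∂μ) :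
    ∃ ν : Measure (Fin n → ℝ), IsProbabilityMeasure ν ∧
      (∀ i : Fin n, ν.map (fun x => x i) = μ) ∧ ∀ᵐ x ∂ν, x ∈ T := by
  have : NeZero n := ⟨hn.ne'⟩
  have : CompactSpace T := isCompact_iff_compactSpace.1 hT
  -- the linear map from tuples of test functions
  let L : (Fin n → (ℝ →ᵇ ℝ)) →ₗ[ℝ] C(T, ℝ) :=
    { toFun := fun g => ⟨fun x => ∑ i, g i (x.1 i), by
        apply continuous_finsetSum
        intro i _
        exact (g i).continuous.comp ((continuous_apply i).comp continuous_subtype_val)⟩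
      map_add' := fun g h => by
        ext x; simp [Finset.sum_add_distrib]
      map_smul' := fun c g => by
        ext x; simp [Finset.mul_sum] }
  have hL : ∀ g x, L g x = ∑ i, g i (x.1 i) := fun g x => rfl
  let M : (Fin n → (ℝ →ᵇ ℝ)) →ₗ[ℝ] ℝ :=
    { toFun := fun g => ∑ i, ∫ y, g i y ∂μ
      map_add' := fun g h => by
        simp only [Pi.add_apply, BoundedContinuousFunction.coe_add]
        rw [← Finset.sum_add_distrib]
        refine Finset.sum_congr rfl fun i _ => ?_
        exact integral_add ((g i).integrable μ) ((h i).integrable μ)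
      map_smul' := fun c g => by
        simp only [Pi.smul_apply, BoundedContinuousFunction.coe_smul, RingHom.id_apply,
          smul_eq_mul, Finset.mul_sum]
        refine Finset.sum_congr rfl fun i _ => ?_
        exact integral_const_mul _ _ }
  have hM : ∀ g, M g = ∑ i, ∫ y, g i y ∂μ := fun g => rfl
  -- positivity
  have hpos : ∀ g, 0 ≤ L g → 0 ≤ M g := by
    intro g hg
    have h1 := hdual (∑ i, g i) (by
      intro x hx
      have e : ∑ j, (∑ i, g i) (x j) = ∑ s : Fin n, ∑ i, g i (x (i + s)) := by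
        have e1 : ∀ j, (∑ i, g i) (x j) = ∑ i, g i (x j) := by
          intro j
          simp
        simp_rw [e1]
        rw [Finset.sum_comm]
        rw [Finset.sum_comm (s := (Finset.univ : Finset (Fin n))) (t := Finset.univ)
          (f := fun s i => g i (x (i + s)))]
        refine Finset.sum_congr rfl fun i _ => ?_
        exact (Equiv.sum_comp (Equiv.addLeft i) (fun j => g i (x j))).symm
      rw [e]
      refine Finset.sum_nonneg fun s _ => ?_
      have hx' := hshift x hx (Equiv.addRight s)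
      have := hg ⟨_, hx'⟩
      simpa [hL] using this)
    have e2 : ∫ y, (∑ i, g i) y ∂μ = M g := by
      rw [hM]
      simp only [BoundedContinuousFunction.coe_sum, Finset.sum_apply]
      exact integral_finsetSum _ (fun i _ => (g i).integrable μ)
    rw [← e2]; exact h1
  have hker : LinearMap.ker L ≤ LinearMap.ker M := by
    intro g hg
    rw [LinearMap.mem_ker] at hg ⊢
    have h1 := hpos g (by rw [hg])
    have h2 := hpos (-g) (by rw [map_neg, hg, neg_zero])
    rw [map_neg] at h2
    linarith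
  let f0 : LinearMap.range L →ₗ[ℝ] ℝ :=
    (LinearMap.ker L).liftQ M hker ∘ₗ (LinearMap.quotKerEquivRange L).symm.toLinearMap
  have hf0 : ∀ g, f0 ⟨L g, LinearMap.mem_range_self L g⟩ = M g := by
    intro g
    have : (⟨L g, LinearMap.mem_range_self L g⟩ : LinearMap.range L)
        = LinearMap.quotKerEquivRange L (Submodule.Quotient.mk g) := by
      apply Subtype.ext
      simp [LinearMap.quotKerEquivRange_apply_mk]
    simp only [f0, LinearMap.comp_apply, this]
    simp
  let f : C(T, ℝ) →ₗ.[ℝ] ℝ := ⟨LinearMap.range L, f0⟩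
  obtain ⟨G, hGf, hGpos⟩ := riesz_extension (PointedCone.positive ℝ C(T, ℝ)) f (by
      rintro ⟨_, g, rfl⟩ hx
      have : 0 ≤ L g := hx
      show 0 ≤ f0 _
      rw [hf0]
      exact hpos g this) (by
      intro y
      refine ⟨⟨L (Pi.single 0 (BoundedContinuousFunction.const ℝ ‖y‖)),
        LinearMap.mem_range_self L _⟩, ?_⟩
      show 0 ≤ L _ + y
      refine ContinuousMap.le_def.2 fun x => ?_
      rw [ContinuousMap.zero_apply, ContinuousMap.add_apply, hL,
        Finset.sum_eq_single (0 : Fin n)]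
      · simp only [Pi.single_eq_same, BoundedContinuousFunction.const_apply]
        have := y.norm_coe_le_norm x
        rw [Real.norm_eq_abs] at this
        linarith [neg_abs_le (y x)]
      · intro j _ hj
        simp [Pi.single_eq_of_ne hj]
      · simp)
  have hGM : ∀ g, G (L g) = M g := by
    intro g
    have := hGf ⟨L g, LinearMap.mem_range_self L g⟩
    rw [← hf0]; exact this
  obtain ⟨ν0, hfin, hν0⟩ := exists_measure_of_positive G (fun φ hφ => hGpos φ hφ)
  have hmeas : ∀ i : Fin n, Measurable (fun x : Fin n → ℝ => x i) := fun i => measurable_pi_apply i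
  have hmarg : ∀ i : Fin n, (ν0.map Subtype.val).map (fun x : Fin n → ℝ => x i) = μ := by
    intro i
    have : IsFiniteMeasure (ν0.map (Subtype.val : T → Fin n → ℝ)) := inferInstance
    have : IsFiniteMeasure ((ν0.map (Subtype.val : T → Fin n → ℝ)).map
      (fun x : Fin n → ℝ => x i)) := inferInstance
    apply ext_of_forall_integral_eq_of_IsFiniteMeasure
    intro g
    rw [integral_map (hmeas i).aemeasurable g.continuous.aestronglyMeasurable,
      integral_map (f := fun x : Fin n → ℝ => g (x i)) measurable_subtype_coe.aemeasurable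
        (Continuous.aestronglyMeasurable (by fun_prop))]
    have h1 := hν0 (L (Pi.single i g))
    rw [hGM, hM] at h1
    have h2 : ∀ x : T, L (Pi.single i g) x = g (x.1 i) := by
      intro x
      rw [hL, Finset.sum_eq_single i]
      · simp
      · intro j _ hj
        simp [Pi.single_eq_of_ne hj]
      · simp
    simp_rw [h2] at h1
    rw [h1, Finset.sum_eq_single i]
    · simp
    · intro j _ hj
      simp [Pi.single_eq_of_ne hj]
    · simp
  refine ⟨ν0.map Subtype.val, ?_, hmarg, ?_⟩
  · have h := hmarg 0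
    constructor
    have h2 : (ν0.map (Subtype.val : T → Fin n → ℝ)).map (fun x : Fin n → ℝ => x 0) univ = 1 := by
      rw [h]; exact measure_univ
    rwa [Measure.map_apply (hmeas 0) MeasurableSet.univ, preimage_univ] at h2
  · rw [ae_map_iff (p := fun x => x ∈ T) measurable_subtype_coe.aemeasurable
      (by simpa using hT.measurableSet)]
    exact Eventually.of_forall fun x => x.2



/-- Local two-point inequality: near a density point of a set where the density of `μ` is bounded
below, any function whose sum over symmetric pairs is at least `B` has a large integral. -/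
theorem pair_lemma (μ : Measure ℝ) [IsFiniteMeasure μ] (hμ : μ ≪ volume) (S : Set ℝ)
    (hS : MeasurableSet S) (hpos : μ S ≠ 0) :
    ∃ x₀ ∈ S, ∃ r : ℝ, 0 < r ∧ ∃ C : ℝ≥0∞, C ≠ ⊤ ∧ ∀ θ : ℝ, |θ| ≤ r →
      ∀ h : ℝ → ℝ≥0∞, Measurable h →
      ∀ B : ℝ≥0∞, (∀ x ∈ S, 2 * x₀ + θ - x ∈ S → B ≤ h x + h (2 * x₀ + θ - x)) →
        B ≤ C * ∫⁻ x, h x ∂μ := by
  set f := μ.rnDeriv volume with hf
  have hfm : Measurable f := Measure.measurable_rnDeriv μ volume
  have hμf : volume.withDensity f = μ := Measure.withDensity_rnDeriv_eq μ volume hμ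
  -- a level set of the density of positive measure
  obtain ⟨k, hk⟩ : ∃ k : ℕ, volume (S ∩ {x | ((k : ℝ≥0∞) + 1)⁻¹ ≤ f x}) ≠ 0 := by
    by_contra hcon
    push Not at hcon
    apply hpos
    have h1 : S ⊆ (S ∩ {x | f x = 0}) ∪ ⋃ k : ℕ, S ∩ {x | ((k : ℝ≥0∞) + 1)⁻¹ ≤ f x} := by
      intro x hx
      by_cases h0 : f x = 0
      · exact Or.inl ⟨hx, h0⟩
      · right
        obtain ⟨k, hk⟩ := ENNReal.exists_inv_nat_lt h0
        refine mem_iUnion.2 ⟨k, hx, ?_⟩
        show ((k : ℝ≥0∞) + 1)⁻¹ ≤ f x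
        refine le_trans ?_ hk.le
        exact ENNReal.inv_le_inv.2 le_self_add
    refine measure_mono_null h1 (measure_union_null ?_ ?_)
    · have h2 : MeasurableSet (S ∩ {x | f x = 0}) :=
        hS.inter (hfm (measurableSet_singleton 0))
      rw [← hμf, withDensity_apply _ h2]
      rw [setLIntegral_congr_fun (g := fun _ => 0) h2 (fun x hx => hx.2)]
      simp
    · refine hμ ?_
      exact measure_iUnion_null hcon
  set c : ℝ≥0∞ := ((k : ℝ≥0∞) + 1)⁻¹ with hc
  have hc0 : c ≠ 0 := by
    rw [hc]; exact ENNReal.inv_ne_zero.2 (by finiteness)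
  have hct : c ≠ ⊤ := by
    rw [hc]; exact ENNReal.inv_ne_top.2 (by simp)
  set A := S ∩ {x | c ≤ f x} with hA
  have hAm : MeasurableSet A := hS.inter (measurableSet_le measurable_const hfm)
  have hne : (ae (volume.restrict A)).NeBot := by
    rw [ae_neBot]
    intro h
    exact hk (Measure.restrict_eq_zero.1 h)
  obtain ⟨x₀, hx₀, hx₀A⟩ :=
    ((Besicovitch.ae_tendsto_measure_inter_div volume A).and (ae_restrict_mem hAm)).exists
  have hev := hx₀.eventually (lt_mem_nhds (show (ENNReal.ofReal (9 / 10)) < 1 by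
    rw [← ENNReal.ofReal_one]; exact (ENNReal.ofReal_lt_ofReal_iff one_pos).2 (by norm_num)))
  obtain ⟨r, hr, hr0⟩ := (hev.and self_mem_nhdsWithin).exists
  have hr0 : 0 < r := hr0
  have hvolI : volume (Metric.closedBall x₀ r) = ENNReal.ofReal (2 * r) := Real.volume_closedBall _ _
  have hAr : ENNReal.ofReal (9 / 5 * r) ≤ volume (A ∩ Metric.closedBall x₀ r) := by
    rw [ENNReal.lt_div_iff_mul_lt (by
      left; rw [hvolI]; exact (ENNReal.ofReal_pos.2 (by linarith)).ne') (by
      left; rw [hvolI]; exact ENNReal.ofReal_ne_top), hvolI,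
      ← ENNReal.ofReal_mul (by norm_num)] at hr
    refine le_trans (le_of_eq ?_) hr.le
    congr 1; ring
  set Ar := A ∩ Metric.closedBall x₀ r with hArdef
  have hArm : MeasurableSet Ar := hAm.inter measurableSet_closedBall
  refine ⟨x₀, hx₀A.1, r / 2, by linarith, 2 * (ENNReal.ofReal (3 / 5 * r) * c)⁻¹, ?_, ?_⟩
  · apply ENNReal.mul_ne_top (by simp)
    exact ENNReal.inv_ne_top.2 (mul_ne_zero (ENNReal.ofReal_pos.2 (by linarith)).ne' hc0)
  intro θ hθ h hh B hB
  set R : ℝ → ℝ := fun x => 2 * x₀ + θ - x with hR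
  have hRmp : MeasurePreserving R volume volume :=
    volume.measurePreserving_sub_left (2 * x₀ + θ)
  have hRR : ∀ x, R (R x) = x := fun x => by simp [hR]
  set D := Ar ∩ R ⁻¹' Ar with hD
  have hDm : MeasurableSet D := hArm.inter (hRmp.measurable hArm)
  have hRD : R ⁻¹' D = D := by
    ext x
    simp only [hD, mem_preimage, mem_inter_iff, hRR]
    exact and_comm
  have hvolR : volume (R ⁻¹' Ar) = volume Ar := hRmp.measure_preimage hArm.nullMeasurableSet
  have hunion : volume (Ar ∪ R ⁻¹' Ar) ≤ ENNReal.ofReal (3 * r) := by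
    have hsub : Ar ∪ R ⁻¹' Ar ⊆ Metric.closedBall x₀ (r + r / 2) := by
      rintro x (hx | hx)
      · exact Metric.closedBall_subset_closedBall (by linarith) hx.2
      · have h2 : R x ∈ Metric.closedBall x₀ r := hx.2
        rw [Metric.mem_closedBall, Real.dist_eq] at h2 ⊢
        simp only [hR] at h2
        rw [abs_le] at h2 hθ ⊢
        constructor <;> linarith [h2.1, h2.2, hθ.1, hθ.2]
    refine (measure_mono hsub).trans (le_of_eq ?_)
    rw [Real.volume_closedBall]
    congr 1; ring
  have hDvol : ENNReal.ofReal (3 / 5 * r) ≤ volume D := by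
    have h1 := measure_union_add_inter (μ := volume) Ar (hRmp.measurable hArm)
    rw [hvolR] at h1
    have h2 : ENNReal.ofReal (9 / 5 * r) + ENNReal.ofReal (9 / 5 * r)
        ≤ ENNReal.ofReal (3 * r) + volume D := by
      calc _ ≤ volume Ar + volume Ar := add_le_add hAr hAr
        _ = volume (Ar ∪ R ⁻¹' Ar) + volume D := h1.symm
        _ ≤ _ := by gcongr
    rw [← ENNReal.ofReal_add (by linarith) (by linarith)] at h2
    have h3 : ENNReal.ofReal (9 / 5 * r + 9 / 5 * r)
        = ENNReal.ofReal (3 * r) + ENNReal.ofReal (3 / 5 * r) := by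
      rw [← ENNReal.ofReal_add (by linarith) (by linarith)]; congr 1; ring
    rw [h3] at h2
    exact (ENNReal.add_le_add_iff_left ENNReal.ofReal_ne_top).1 h2
  have hint1 : B * volume D ≤ 2 * ∫⁻ x in D, h x := by
    calc B * volume D = ∫⁻ _ in D, B := by rw [setLIntegral_const]
      _ ≤ ∫⁻ x in D, (h x + h (R x)) := by
          refine setLIntegral_mono' hDm fun x hx => ?_
          exact hB x hx.1.1.1 hx.2.1.1
      _ = (∫⁻ x in D, h x) + ∫⁻ x in D, h (R x) := lintegral_add_left hh _
      _ = (∫⁻ x in D, h x) + ∫⁻ x in D, h x := by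
          congr 1
          have := hRmp.setLIntegral_comp_preimage hDm hh
          rw [hRD] at this
          exact this
      _ = 2 * ∫⁻ x in D, h x := (two_mul _).symm
  have hint2 : c * ∫⁻ x in D, h x ≤ ∫⁻ x, h x ∂μ := by
    calc c * ∫⁻ x in D, h x = ∫⁻ x in D, c * h x := (lintegral_const_mul c hh).symm
      _ ≤ ∫⁻ x in D, f x * h x := by
          refine setLIntegral_mono' hDm fun x hx => ?_
          have : c ≤ f x := hx.1.1.2
          gcongr
      _ ≤ ∫⁻ x, f x * h x := setLIntegral_le_lintegral _ _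
      _ = ∫⁻ x, h x ∂(volume.withDensity f) := by
          rw [lintegral_withDensity_eq_lintegral_mul volume hfm hh]; rfl
      _ = ∫⁻ x, h x ∂μ := by rw [hμf]
  have hfin : B * (ENNReal.ofReal (3 / 5 * r) * c) ≤ 2 * ∫⁻ x, h x ∂μ := by
    calc B * (ENNReal.ofReal (3 / 5 * r) * c) ≤ B * (volume D * c) := by gcongr
      _ = (B * volume D) * c := by ring
      _ ≤ (2 * ∫⁻ x in D, h x) * c := by gcongr
      _ = 2 * (c * ∫⁻ x in D, h x) := by ring
      _ ≤ 2 * ∫⁻ x, h x ∂μ := by gcongr
  have hq0 : ENNReal.ofReal (3 / 5 * r) * c ≠ 0 :=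
    mul_ne_zero (ENNReal.ofReal_pos.2 (by linarith)).ne' hc0
  have hqt : ENNReal.ofReal (3 / 5 * r) * c ≠ ⊤ := ENNReal.mul_ne_top ENNReal.ofReal_ne_top hct
  rw [← ENNReal.le_div_iff_mul_le (Or.inl hq0) (Or.inl hqt)] at hfin
  refine hfin.trans (le_of_eq ?_)
  rw [div_eq_mul_inv]; ring

/-- Choice of the number of copies of `u` and `v`. -/
theorem exists_split {u v m : ℝ} (hu : u ≤ m) (hv : m ≤ v) (M : ℕ) :
    ∃ p q : ℕ, p + q = M ∧ 0 ≤ M * m - p * u - q * v ∧ M * m - p * u - q * v ≤ v - u := by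
  rcases eq_or_lt_of_le (hu.trans hv) with h | h
  · have hum : u = m := le_antisymm hu (by linarith)
    have hvm : v = m := by linarith
    refine ⟨M, 0, by simp, ?_, ?_⟩ <;> simp [hum, hvm]
  · have hvu : 0 < v - u := by linarith
    have hq0 : 0 ≤ M * (m - u) / (v - u) :=
      div_nonneg (mul_nonneg (Nat.cast_nonneg _) (by linarith)) hvu.le
    set q := ⌊M * (m - u) / (v - u)⌋₊ with hq
    have h1 : (q : ℝ) ≤ M * (m - u) / (v - u) := Nat.floor_le hq0
    have h2 : M * (m - u) / (v - u) < q + 1 := Nat.lt_floor_add_one _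
    have hqM : q ≤ M := by
      have : M * (m - u) / (v - u) ≤ M := by
        rw [div_le_iff₀ hvu]
        exact mul_le_mul_of_nonneg_left (by linarith) (Nat.cast_nonneg _)
      exact_mod_cast h1.trans this
    rw [le_div_iff₀ hvu] at h1
    rw [div_lt_iff₀ hvu] at h2
    refine ⟨M - q, q, Nat.sub_add_cancel hqM, ?_, ?_⟩
    · rw [Nat.cast_sub hqM]; nlinarith
    · rw [Nat.cast_sub hqM]; nlinarith

/-- The dual inequality. -/
theorem dual_main (μ : Measure ℝ) [IsProbabilityMeasure μ] (hμ : μ ≪ volume) (a b : ℝ)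
    (hab : μ (Icc a b)ᶜ = 0) :
    ∃ N : ℕ, ∀ n : ℕ, N ≤ n → ∀ g : ℝ → ℝ, Continuous g →
      (∀ s : Multiset ℝ, s.card = n → (∀ x ∈ s, x ∈ Icc a b) → s.sum = n * ∫ x, x ∂μ →
        0 ≤ (s.map g).sum) → 0 ≤ ∫ x, g x ∂μ := by
  set m := ∫ x, x ∂μ with hm
  have hae : ∀ᵐ x ∂μ, x ∈ Icc a b := by
    rw [ae_iff]; exact hab
  have hrestr : μ.restrict (Icc a b) = μ := Measure.restrict_eq_self_of_ae_mem hae
  have hint : ∀ φ : ℝ → ℝ, Continuous φ → Integrable φ μ := by
    intro φ hφ
    have := (hφ.continuousOn (s := Icc a b)).integrableOn_compact (μ := μ) isCompact_Icc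
    rwa [IntegrableOn, hrestr] at this
  have hid : Integrable (fun x : ℝ => x) μ := hint _ continuous_id
  have hxm : ∫ x, (x - m) ∂μ = 0 := by
    rw [integral_sub hid (integrable_const _)]
    simp [hm]
  have hmx : ∫ x, (m - x) ∂μ = 0 := by
    rw [integral_sub (integrable_const _) hid]
    simp [hm]
  have hsing : μ {m} = 0 := hμ (by simp)
  -- mass on both sides of the mean
  have hR : μ (Icc a b ∩ Ioi m) ≠ 0 := by
    intro h0
    have h1 : ∀ᵐ x ∂μ, 0 ≤ m - x := by
      have h2 : ∀ᵐ x ∂μ, x ∉ Icc a b ∩ Ioi m := measure_eq_zero_iff_ae_notMem.1 h0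
      filter_upwards [hae, h2] with x hx hx2
      by_contra hc
      exact hx2 ⟨hx, by simp only [mem_Ioi]; linarith⟩
    have h3 := (integral_eq_zero_iff_of_nonneg_ae h1 (hint _ (by fun_prop))).1 hmx
    have h4 : ∀ᵐ x ∂μ, x ∈ ({m} : Set ℝ) := by
      filter_upwards [h3] with x hx
      simp only [Pi.zero_apply] at hx
      simp only [mem_singleton_iff]; linarith
    have h5 : μ univ = 0 := by
      rw [← hsing]
      exact (measure_eq_measure_of_null_sdiff (subset_univ _) (by
        rw [ae_iff] at h4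
        convert h4 using 2
        ext x; simp)).symm
    simp at h5
  have hL : μ (Icc a b ∩ Iio m) ≠ 0 := by
    intro h0
    have h1 : ∀ᵐ x ∂μ, 0 ≤ x - m := by
      have h2 : ∀ᵐ x ∂μ, x ∉ Icc a b ∩ Iio m := measure_eq_zero_iff_ae_notMem.1 h0
      filter_upwards [hae, h2] with x hx hx2
      by_contra hc
      exact hx2 ⟨hx, by simp only [mem_Iio]; linarith⟩
    have h3 := (integral_eq_zero_iff_of_nonneg_ae h1 (hint _ (by fun_prop))).1 hxm
    have h4 : ∀ᵐ x ∂μ, x ∈ ({m} : Set ℝ) := by
      filter_upwards [h3] with x hx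
      simp only [Pi.zero_apply] at hx
      simp only [mem_singleton_iff]; linarith
    have h5 : μ univ = 0 := by
      rw [← hsing]
      exact (measure_eq_measure_of_null_sdiff (subset_univ _) (by
        rw [ae_iff] at h4
        convert h4 using 2
        ext x; simp)).symm
    simp at h5
  obtain ⟨x₀, hx₀, r₁, hr₁, C₁, hC₁, hpair₁⟩ := pair_lemma μ hμ _
    (measurableSet_Icc.inter measurableSet_Iio) hL
  obtain ⟨y₀, hy₀, r₂, hr₂, C₂, hC₂, hpair₂⟩ := pair_lemma μ hμ _
    (measurableSet_Icc.inter measurableSet_Ioi) hR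
  have hx₀m : x₀ < m := hx₀.2
  have hmy₀ : m < y₀ := hy₀.2
  have ham : a < m := lt_of_le_of_lt hx₀.1.1 hx₀m
  have hmb : m < b := lt_of_lt_of_le hmy₀ hy₀.1.2
  set r := min r₁ r₂ with hr
  have hr0 : 0 < r := lt_min hr₁ hr₂
  set d₁ := m - x₀ with hd₁
  set d₂ := y₀ - m with hd₂
  have hd₁0 : 0 < d₁ := by rw [hd₁]; linarith
  have hd₂0 : 0 < d₂ := by rw [hd₂]; linarith
  -- number of pairs on the left
  obtain ⟨i, hi⟩ := exists_nat_ge (((b - a) + 2 * d₂) / r)
  have hi' : (b - a) + 2 * d₂ ≤ i * r := by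
    rwa [div_le_iff₀ hr0] at hi
  have hi0 : 0 < (i : ℝ) := by
    by_contra hcon
    have : (i : ℝ) * r ≤ 0 := mul_nonpos_of_nonpos_of_nonneg (not_lt.1 hcon) hr0.le
    linarith
  -- number of pairs on the right
  set j := ⌈i * d₁ / d₂⌉₊ with hj
  have hj1 : i * d₁ ≤ j * d₂ := by
    have := Nat.le_ceil (i * d₁ / d₂)
    rwa [div_le_iff₀ hd₂0] at this
  have hj2 : j * d₂ ≤ i * d₁ + d₂ := by
    have := (Nat.ceil_lt_add_one (show 0 ≤ i * d₁ / d₂ by positivity)).le
    have h2 := mul_le_mul_of_nonneg_right this hd₂0.le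
    have h3 : (i * d₁ / d₂ + 1) * d₂ = i * d₁ + d₂ := by field_simp
    rw [h3] at h2
    exact h2
  set w : ℝ := (i : ℝ) + j with hw
  have hw0 : 0 < w := by positivity
  set C : ℝ := w * (max C₁ C₂).toReal with hC
  have hC0 : 0 ≤ C := by positivity
  refine ⟨max (2 * (i + j)) ⌈C⌉₊, fun n hn g hg hdual => ?_⟩
  have hnk : 2 * (i + j) ≤ n := le_trans (le_max_left _ _) hn
  have hnC : C ≤ n := by
    have h1 : (⌈C⌉₊ : ℝ) ≤ n := by exact_mod_cast le_trans (le_max_right _ _) hn
    exact (Nat.le_ceil C).trans h1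
  obtain ⟨α, t, u, v, hu, hv, hpos, hgu, hgv⟩ := support_line ham hmb g hg
  set h : ℝ → ℝ := fun x => g x - α * (x - m) + t with hh
  have hhc : Continuous h := by simp only [hh]; fun_prop
  have hinth : ∫ x, h x ∂μ = ∫ x, g x ∂μ + t := by
    have e1 : ∫ x, h x ∂μ = ∫ x, (g x - α * (x - m)) ∂μ + ∫ _, t ∂μ :=
      integral_add (hint _ (by fun_prop)) (integrable_const t)
    have e2 : ∫ x, (g x - α * (x - m)) ∂μ = ∫ x, g x ∂μ - ∫ x, α * (x - m) ∂μ :=
      integral_sub (hint _ hg) (hint _ (by fun_prop))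
    rw [e1, e2, integral_const_mul, hxm]
    simp
  have hhnn : 0 ≤ᵐ[μ] h := by
    filter_upwards [hae] with x hx using hpos x hx
  have hhint0 : 0 ≤ ∫ x, h x ∂μ := integral_nonneg_of_ae hhnn
  rcases le_or_gt t 0 with ht | ht
  · linarith
  -- split of the remaining variables
  obtain ⟨p, q, hpq, hσ0, hσ1⟩ := exists_split hu.2 hv.1 (n - 2 * (i + j))
  set M := n - 2 * (i + j) with hM
  have hMn : (M : ℝ) = n - 2 * w := by
    rw [hM, Nat.cast_sub hnk]; push_cast; rw [hw]
  set σ : ℝ := M * m - p * u - q * v with hσ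
  have hσb : σ ≤ b - a := by linarith [hu.1, hv.2]
  set θ : ℝ := (σ + 2 * (i * d₁) - 2 * (j * d₂)) / w with hθ
  have hθw : w * θ = σ + 2 * (i * d₁) - 2 * (j * d₂) := by
    rw [hθ]; field_simp
  have hθr : |θ| ≤ r := by
    rw [hθ, abs_div, abs_of_pos hw0, div_le_iff₀ hw0]
    have h1 : |σ + 2 * (i * d₁) - 2 * (j * d₂)| ≤ (b - a) + 2 * d₂ := by
      rw [abs_le]; constructor <;> linarith
    have h2 : i * r ≤ r * w := by
      have : (0 : ℝ) ≤ j * r := by positivity
      rw [hw]; linarith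
    linarith
  -- the key inequality
  have hkey : ∀ x ∈ Icc a b ∩ Iio m, 2 * x₀ + θ - x ∈ Icc a b ∩ Iio m →
      ∀ y ∈ Icc a b ∩ Ioi m, 2 * y₀ + θ - y ∈ Icc a b ∩ Ioi m →
      n * t ≤ i * (h x + h (2 * x₀ + θ - x)) + j * (h y + h (2 * y₀ + θ - y)) := by
    intro x hx hx' y hy hy'
    set s : Multiset ℝ := Multiset.replicate i x + Multiset.replicate i (2 * x₀ + θ - x)
      + Multiset.replicate j y + Multiset.replicate j (2 * y₀ + θ - y)
      + Multiset.replicate p u + Multiset.replicate q v with hs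
    have hcard : s.card = n := by
      rw [hs]
      simp only [Multiset.card_add, Multiset.card_replicate]
      omega
    have hmem : ∀ z ∈ s, z ∈ Icc a b := by
      intro z hz
      rw [hs] at hz
      simp only [Multiset.mem_add, Multiset.mem_replicate] at hz
      rcases hz with ((((hz | hz) | hz) | hz) | hz) | hz
      · rw [hz.2]; exact hx.1
      · rw [hz.2]; exact hx'.1
      · rw [hz.2]; exact hy.1
      · rw [hz.2]; exact hy'.1
      · rw [hz.2]; exact ⟨hu.1, hu.2.trans hmb.le⟩
      · rw [hz.2]; exact ⟨ham.le.trans hv.1, hv.2⟩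
    have hsum : s.sum = n * m := by
      rw [hs]
      simp only [Multiset.sum_add, Multiset.sum_replicate, nsmul_eq_mul]
      have e : (i : ℝ) * x + i * (2 * x₀ + θ - x) + j * y + j * (2 * y₀ + θ - y) + p * u + q * v
          = 2 * (i * x₀) + 2 * (j * y₀) + w * θ + (M * m - σ) := by
        rw [hσ, hw]; ring
      rw [e, hθw, hMn, hd₁, hd₂, hw]; ring
    have h1 := hdual s hcard hmem hsum
    rw [hs] at h1
    simp only [Multiset.map_add, Multiset.map_replicate, Multiset.sum_add,
      Multiset.sum_replicate, nsmul_eq_mul] at h1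
    have hgh : ∀ z, g z = h z + α * (z - m) - t := fun z => by simp only [hh]; ring
    have hhu : h u = 0 := hgu
    have hhv : h v = 0 := hgv
    rw [hgh x, hgh (2 * x₀ + θ - x), hgh y, hgh (2 * y₀ + θ - y), hgh u, hgh v, hhu, hhv] at h1
    have hsum' : (i : ℝ) * x + i * (2 * x₀ + θ - x) + j * y + j * (2 * y₀ + θ - y)
        + p * u + q * v = n * m := by
      have := hsum
      rw [hs] at this
      simpa only [Multiset.sum_add, Multiset.sum_replicate, nsmul_eq_mul] using this
    have hcardR : (i : ℝ) + i + j + j + p + q = n := by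
      have : i + i + j + j + p + q = n := by omega
      exact_mod_cast this
    have e3 : (i : ℝ) * (h x + α * (x - m) - t) + i * (h (2 * x₀ + θ - x)
        + α * (2 * x₀ + θ - x - m) - t) + j * (h y + α * (y - m) - t)
        + j * (h (2 * y₀ + θ - y) + α * (2 * y₀ + θ - y - m) - t)
        + p * (0 + α * (u - m) - t) + q * (0 + α * (v - m) - t)
        = i * (h x + h (2 * x₀ + θ - x)) + j * (h y + h (2 * y₀ + θ - y))
          + α * (((i : ℝ) * x + i * (2 * x₀ + θ - x) + j * y + j * (2 * y₀ + θ - y)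
            + p * u + q * v) - ((i : ℝ) + i + j + j + p + q) * m)
          - ((i : ℝ) + i + j + j + p + q) * t := by ring
    rw [e3, hsum', hcardR] at h1
    linarith
  -- dichotomy
  set B : ℝ := n * t / w with hB
  have hBw : w * B = n * t := by rw [hB]; field_simp
  have hlift : ∀ z z' : ℝ, z ∈ Icc a b → z' ∈ Icc a b → B ≤ h z + h z' →
      ENNReal.ofReal B ≤ ENNReal.ofReal (h z) + ENNReal.ofReal (h z') := by
    intro z z' hz hz' hB'
    rw [← ENNReal.ofReal_add (hpos z hz) (hpos z' hz')]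
    exact ENNReal.ofReal_le_ofReal hB'
  have hmeas : Measurable fun x => ENNReal.ofReal (h x) := hhc.measurable.ennreal_ofReal
  have hθ₁ : |θ| ≤ r₁ := hθr.trans (min_le_left _ _)
  have hθ₂ : |θ| ≤ r₂ := hθr.trans (min_le_right _ _)
  have hmain : ENNReal.ofReal B ≤ max C₁ C₂ * ∫⁻ x, ENNReal.ofReal (h x) ∂μ := by
    by_cases hcase : ∀ x ∈ Icc a b ∩ Iio m, 2 * x₀ + θ - x ∈ Icc a b ∩ Iio m →
        B ≤ h x + h (2 * x₀ + θ - x)
    · refine (hpair₁ θ hθ₁ _ hmeas _ fun x hx hx' =>
        hlift x _ hx.1 hx'.1 (hcase x hx hx')).trans ?_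
      gcongr
      exact le_max_left _ _
    · push Not at hcase
      obtain ⟨x, hx, hx', hlt⟩ := hcase
      refine (hpair₂ θ hθ₂ _ hmeas _ fun y hy hy' =>
        hlift y _ hy.1 hy'.1 ?_).trans ?_
      · by_contra hcon
        push Not at hcon
        have h1 := hkey x hx hx' y hy hy'
        have h2 : (i : ℝ) * (h x + h (2 * x₀ + θ - x)) < i * B :=
          mul_lt_mul_of_pos_left hlt hi0
        have h3 : (j : ℝ) * (h y + h (2 * y₀ + θ - y)) ≤ j * B :=
          mul_le_mul_of_nonneg_left hcon.le (Nat.cast_nonneg _)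
        have h4 : w * B = i * B + j * B := by rw [hw]; ring
        linarith
      · gcongr
        exact le_max_right _ _
  have hlint : ∫⁻ x, ENNReal.ofReal (h x) ∂μ = ENNReal.ofReal (∫ x, h x ∂μ) :=
    (ofReal_integral_eq_lintegral_ofReal (hint _ hhc) hhnn).symm
  rw [hlint] at hmain
  have hCt : max C₁ C₂ ≠ ⊤ := by
    rcases max_choice C₁ C₂ with h' | h' <;> rw [h'] <;> assumption
  have hreal : B ≤ (max C₁ C₂).toReal * ∫ x, h x ∂μ := by
    rw [← ENNReal.ofReal_toReal hCt, ← ENNReal.ofReal_mul ENNReal.toReal_nonneg] at hmain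
    exact (ENNReal.ofReal_le_ofReal_iff (mul_nonneg ENNReal.toReal_nonneg hhint0)).1 hmain
  have h5 : n * t ≤ C * ∫ x, h x ∂μ := by
    have := mul_le_mul_of_nonneg_left hreal hw0.le
    rw [hBw] at this
    rw [hC]; linarith
  rw [hinth] at h5
  by_contra hneg
  push Not at hneg
  have h6 : C * t ≤ n * t := mul_le_mul_of_nonneg_right hnC ht.le
  have h7 : C * ∫ x, g x ∂μ ≤ 0 := mul_nonpos_of_nonneg_of_nonpos hC0 hneg.le
  -- strictness: use positivity of the left side
  have h8 : (n : ℝ) * t ≤ C * t + C * ∫ x, g x ∂μ := by linarith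
  have hn0 : (0 : ℝ) < n := by
    have : 0 < i := by exact_mod_cast hi0
    have : 0 < n := by omega
    exact_mod_cast this
  have h9 : C ≠ 0 := by
    intro hC0'
    rw [hC0'] at h5
    have : 0 < (n : ℝ) * t := mul_pos hn0 ht
    linarith
  have h10 : C * ∫ x, g x ∂μ < 0 :=
    mul_neg_of_pos_of_neg (lt_of_le_of_ne hC0 (Ne.symm h9)) hneg
  linarith


/-- **Asymptotic complete mixability.** -/
theorem main (μ : Measure ℝ) [IsProbabilityMeasure μ] (hμ : μ ≪ volume) (a b : ℝ)
    (hab : μ (Icc a b)ᶜ = 0) :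
    ∃ N : ℕ, ∀ n : ℕ, N ≤ n → ∃ ν : Measure (Fin n → ℝ), IsProbabilityMeasure ν ∧
      (∀ i : Fin n, ν.map (fun x => x i) = μ) ∧
      ∀ᵐ x ∂ν, ∑ i, x i = n * ∫ x, x ∂μ := by
  obtain ⟨N, hN⟩ := dual_main μ hμ a b hab
  refine ⟨max N 1, fun n hn => ?_⟩
  have hn1 : 0 < n := lt_of_lt_of_le one_pos ((le_max_right N 1).trans hn)
  have hnN : N ≤ n := (le_max_left N 1).trans hn
  set T : Set (Fin n → ℝ) :=
    (Set.univ.pi fun _ => Icc a b) ∩ {x | ∑ i, x i = n * ∫ x, x ∂μ} with hT
  have hTc : IsCompact T := by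
    refine (isCompact_univ_pi fun _ => isCompact_Icc).inter_right ?_
    exact isClosed_eq (by fun_prop) continuous_const
  have hTmem : ∀ x : Fin n → ℝ, x ∈ T ↔ (∀ i, x i ∈ Icc a b) ∧ ∑ i, x i = n * ∫ x, x ∂μ := by
    intro x
    rw [hT, mem_inter_iff, mem_ofPred_eq]
    simp only [Set.mem_pi, mem_univ, forall_true_left]
  obtain ⟨ν, hν, hmarg, hsupp⟩ := exists_coupling hn1 μ T hTc (by
      intro x hx σ
      rw [hTmem] at hx ⊢
      exact ⟨fun i => hx.1 _, by rw [Equiv.sum_comp σ x]; exact hx.2⟩) (by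
      intro g hg
      refine hN n hnN g g.continuous fun s hcard hmem hsum => ?_
      obtain ⟨l, rfl⟩ := Quot.exists_rep s
      have hcard' : l.length = n := hcard
      subst hcard'
      have h1 := hg (fun i => l.get i) (by
        rw [hTmem]
        refine ⟨fun i => hmem _ (by simp), ?_⟩
        rw [← hsum]
        have : (List.ofFn fun i => l.get i).sum = ∑ i, l.get i := List.sum_ofFn
        rw [← this, List.ofFn_get]
        rfl)
      have h2 : (List.ofFn fun i => g (l.get i)).sum = ∑ i, g (l.get i) := List.sum_ofFn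
      rw [← h2] at h1
      have h3 : (List.ofFn fun i => g (l.get i)) = l.map g := by
        have := List.map_ofFn (f := fun i => l.get i) (g := g)
        rw [List.ofFn_get] at this
        exact this.symm
      rw [h3] at h1
      exact h1)
  refine ⟨ν, hν, hmarg, ?_⟩
  filter_upwards [hsupp] with x hx
  exact ((hTmem x).1 hx).2

end Pool.Agent.CM98
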