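/-
Definitions for slowly switching, at-most-monomolecular stochastic reaction networks
(problem MP_adc20b_pr).
-/
import Mathlib

set_option autoImplicit false

open MeasureTheory ProbabilityTheory Filter
open scoped ENNReal

namespace Pool.Agent.Switch98

/-! ### Reaction networks -/

/-- A reaction `src → tgt` on `d` species. Both complexes are vectors of nonnegative integers. -/
structure Reaction (d : ℕ) where
  /-- the source complex `y` -/
  src : Fin d → ℕ
  /-- the target complex `y'` -/
  tgt : Fin d → ℕ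

/-- A finite set of reactions `y → y'` (with `y ≠ y'`) on `d` species that is at most
monomolecular (every source complex is `0` or a unit vector), with positive rate constants. -/
structure Network (d : ℕ) where
  /-- the finite set of reactions -/
  reactions : Finset (Reaction d)
  /-- the rate constants (only the values on `reactions` matter) -/
  c : Reaction d → ℝ
  c_pos : ∀ r ∈ reactions, 0 < c r
  src_ne_tgt : ∀ r ∈ reactions, r.src ≠ r.tgt
  monomolecular : ∀ r ∈ reactions, r.src = 0 ∨ ∃ l, r.src = Pi.single l 1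

/-- Stochastic mass-action rate of the reaction `r` in state `x`:
`c * ∏ₘ x_m (x_m - 1) ⋯ (x_m - y_m + 1)`, where `y` is the source of `r`. -/
noncomputable def Network.intensity {d : ℕ} (N : Network d) (r : Reaction d) (x : Fin d → ℕ) : ℝ :=
  N.c r * ∏ m, ((x m).descFactorial (r.src m) : ℝ)

/-- The drift `∑_{y → y'} rate(x) (y'_m - y_m)` of species `m`. -/
noncomputable def Network.drift {d : ℕ} (N : Network d) (x : Fin d → ℕ) (m : Fin d) : ℝ :=
  ∑ r ∈ N.reactions, N.intensity r x * ((r.tgt m : ℝ) - (r.src m : ℝ))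

/-- `M` is the `d × d` matrix of the network: the drift is `M x + o(‖x‖₁)` as `‖x‖₁ → ∞`. -/
def Network.IsMatrix {d : ℕ} (N : Network d) (M : Matrix (Fin d) (Fin d) ℝ) : Prop :=
  ∀ m : Fin d,
    (fun x : Fin d → ℕ => N.drift x m - (M.mulVec fun l => (x l : ℝ)) m)
      =o[comap (fun x : Fin d → ℕ => ∑ l, x l) atTop] fun x => ((∑ l, x l : ℕ) : ℝ)

/-- `Q` is the rate matrix of an irreducible Markov chain on `Fin n`. -/
def IsIrreducibleRateMatrix {n : ℕ} (Q : Matrix (Fin n) (Fin n) ℝ) : Prop :=
  (∀ i j, i ≠ j → 0 ≤ Q i j) ∧ (∀ i, ∑ j, Q i j = 0) ∧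
    ∀ i j, Relation.ReflTransGen (fun a b => a ≠ b ∧ 0 < Q a b) i j

/-- States of the mixed process: species counts and environment. -/
abbrev State (d n : ℕ) : Type := (Fin d → ℕ) × Fin n

/-- Jump rates of the mixed process `Z_κ` from `s = (x, i)` to `s'`: the sum of the rates of the
reactions of environment `i` that lead from `x` to `x'` if `s' = (x', i)`, and `κ q_{ij}` if
`s' = (x, j)` with `j ≠ i`. -/
noncomputable def mixedRate {d n : ℕ} (R : Fin n → Network d) (Q : Matrix (Fin n) (Fin n) ℝ)
    (κ : ℝ) (s s' : State d n) : ℝ :=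
  open Classical in
  (if s'.2 = s.2 then
    ∑ r ∈ (R s.2).reactions,
      if s'.1 + r.src = s.1 + r.tgt then (R s.2).intensity r s.1 else 0
    else 0)
  + (if s'.1 = s.1 ∧ s'.2 ≠ s.2 then κ * Q s.2 s'.2 else 0)

/-! ### Continuous-time Markov chains on a countable state space -/

section CTMC

variable {S Ω : Type*}

/-- Total rate of the jumps out of `s`, for jump rates `q s s'`. -/
noncomputable def exitRate (q : S → S → ℝ) (s : S) : ℝ := ∑' s', q s s'

/-- Transition probabilities of the jump chain (an absorbing state stays put). -/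
noncomputable def jumpProb (q : S → S → ℝ) (s s' : S) : ℝ :=
  open Classical in
  if exitRate q s = 0 then (if s' = s then 1 else 0) else q s s' / exitRate q s

/-- Time of the `k`-th jump: the `j`-th holding time is `E j / exitRate (Y j)`
(infinite if the exit rate is zero and `E j > 0`). -/
noncomputable def jumpTime (q : S → S → ℝ) (Y : ℕ → Ω → S) (E : ℕ → Ω → ℝ) (k : ℕ) (ω : Ω) :
    ℝ≥0∞ :=
  ∑ j ∈ Finset.range k, ENNReal.ofReal (E j ω) / ENNReal.ofReal (exitRate q (Y j ω))

/-- `Z` is a continuous-time Markov chain on `S` with jump rates `q s s'` (`s' ≠ s`) started at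
`s₀`, in the usual jump-chain/holding-time description: there are a Markov chain `Y` with
transition probabilities `jumpProb q` started at `s₀` and an independent sequence `E` of
independent rate-one exponential variables such that `Z t = Y k` for
`jumpTime k ≤ t < jumpTime (k+1)`. Nothing is required of `Z` after an explosion. -/
def IsCTMC [MeasurableSpace S] [MeasurableSpace Ω] (P : Measure Ω) (q : S → S → ℝ) (s₀ : S)
    (Z : ℝ → Ω → S) : Prop :=
  ∃ (Y : ℕ → Ω → S) (E : ℕ → Ω → ℝ),
    (∀ k, Measurable (Y k)) ∧ (∀ ω, Y 0 ω = s₀) ∧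
    (∀ (k : ℕ) (p : ℕ → S), P {ω | ∀ j ≤ k + 1, Y j ω = p j} =
      P {ω | ∀ j ≤ k, Y j ω = p j} * ENNReal.ofReal (jumpProb q (p k) (p (k + 1)))) ∧
    (∀ k, Measurable (E k)) ∧ (∀ k, P.map (E k) = expMeasure 1) ∧ iIndepFun E P ∧
    IndepFun (fun ω k => Y k ω) (fun ω k => E k ω) P ∧
    ∀ ω k, ∀ t : ℝ, 0 ≤ t → jumpTime q Y E k ω ≤ ENNReal.ofReal t →
      ENNReal.ofReal t < jumpTime q Y E (k + 1) ω → Z t ω = Y k ω

end CTMC

/-- The state `s = (x, i)` is evanescent: started from `s`, the total number of molecules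
`‖X(t)‖₁` tends to infinity with positive probability. -/
def Evanescent {d n : ℕ} (q : State d n → State d n → ℝ) (s : State d n) : Prop :=
  ∃ (Ω : Type) (_ : MeasurableSpace Ω) (P : Measure Ω) (Z : ℝ → Ω → State d n),
    IsProbabilityMeasure P ∧ IsCTMC P q s Z ∧
      0 < P {ω | Tendsto (fun t : ℝ => ∑ m, (Z t ω).1 m) atTop atTop}

end Pool.Agent.Switch98
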