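/-
Generic tools for the switching networks: supermartingale argument along the jump chain,
non-explosion, the generator of the mixed process, and a Foster-Lyapunov criterion.
-/
import Pool.Agent.Lib.Helper98.SwitchDefs

set_option autoImplicit false

open MeasureTheory ProbabilityTheory Filter Set
open scoped ENNReal

namespace Pool.Agent.Switch98


section Generic

variable {S Ω : Type*} [Countable S] [MeasurableSpace S] [MeasurableSingletonClass S]
  [MeasurableSpace Ω]

/-- One step of the supermartingale argument. -/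
theorem one_step (P : Measure Ω) (Y : ℕ → Ω → S) (p : S → S → ℝ≥0∞)
    (hY : ∀ k, Measurable (Y k))
    (hmarkov : ∀ (k : ℕ) (w : ℕ → S), P {ω | ∀ j ≤ k + 1, Y j ω = w j} =
      P {ω | ∀ j ≤ k, Y j ω = w j} * p (w k) (w (k + 1)))
    (V : S → ℝ≥0∞) (K : Set S) (hV : ∀ s, s ∉ K → ∑' s', p s s' * V s' ≤ V s)
    (k : ℕ) (G : Set (Fin (k + 1) → S)) (hG : ∀ w ∈ G, w (Fin.last k) ∉ K) :
    ∫⁻ ω in {ω | (fun j : Fin (k + 1) => Y j ω) ∈ G}, V (Y (k + 1) ω) ∂P
      ≤ ∫⁻ ω in {ω | (fun j : Fin (k + 1) => Y j ω) ∈ G}, V (Y k ω) ∂P := by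
  have hcyl : ∀ w : Fin (k + 1) → S, MeasurableSet {ω | (fun j : Fin (k + 1) => Y j ω) = w} := by
    intro w
    have : {ω | (fun j : Fin (k + 1) => Y j ω) = w} = ⋂ j : Fin (k + 1), Y j ⁻¹' {w j} := by
      ext ω; simp [funext_iff]
    rw [this]
    exact MeasurableSet.iInter fun j => hY j (measurableSet_singleton _)
  have hunion : {ω | (fun j : Fin (k + 1) => Y j ω) ∈ G}
      = ⋃ w : G, {ω | (fun j : Fin (k + 1) => Y j ω) = (w : Fin (k + 1) → S)} := by
    ext ω; simp
  have hdisj : Pairwise (Function.onFun Disjoint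
      fun w : G => {ω | (fun j : Fin (k + 1) => Y j ω) = (w : Fin (k + 1) → S)}) := by
    intro w w' hww
    rw [Function.onFun, Set.disjoint_left]
    intro ω h1 h2
    exact hww (Subtype.ext (h1.symm.trans h2))
  have hcyl' : ∀ w : G, MeasurableSet
      {ω | (fun j : Fin (k + 1) => Y j ω) = (w : Fin (k + 1) → S)} := fun w => hcyl w
  rw [hunion, lintegral_iUnion hcyl' hdisj, lintegral_iUnion hcyl' hdisj]
  refine ENNReal.tsum_le_tsum fun w => ?_
  obtain ⟨w, hw⟩ := w
  simp only
  set C := {ω | (fun j : Fin (k + 1) => Y j ω) = w} with hC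
  -- extension of the path
  let W : S → ℕ → S := fun s' j => if h : j < k + 1 then w ⟨j, h⟩ else s'
  have hWk : ∀ s', W s' k = w (Fin.last k) := fun s' => by
    simp [W, Fin.last]
  have hWk1 : ∀ s', W s' (k + 1) = s' := fun s' => by simp [W]
  have hCW : ∀ s', C = {ω | ∀ j ≤ k, Y j ω = W s' j} := by
    intro s'
    ext ω
    simp only [hC, mem_ofPred_eq, funext_iff]
    constructor
    · intro h j hj
      have := h ⟨j, by omega⟩
      simp only [W, show j < k + 1 by omega, dif_pos]
      exact this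
    · intro h j
      have := h j.1 (by omega)
      simp only [W, j.2, dif_pos] at this
      exact this
  have hstep : ∀ s', P (C ∩ Y (k + 1) ⁻¹' {s'}) = P C * p (w (Fin.last k)) s' := by
    intro s'
    have h1 := hmarkov k (W s')
    rw [← hCW s', hWk, hWk1] at h1
    rw [← h1]
    congr 1
    ext ω
    rw [hCW s']
    simp only [mem_inter_iff, mem_ofPred_eq, mem_preimage, mem_singleton_iff]
    constructor
    · rintro ⟨h2, h3⟩ j hj
      rcases Nat.lt_or_ge k j with h | h
      · have : j = k + 1 := by omega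
        subst this; rw [hWk1]; exact h3
      · exact h2 j h
    · intro h2
      refine ⟨fun j hj => h2 j (by omega), ?_⟩
      have := h2 (k + 1) le_rfl
      rwa [hWk1] at this
  have hCm : MeasurableSet C := hcyl w
  have hR : ∫⁻ ω in C, V (Y k ω) ∂P = P C * V (w (Fin.last k)) := by
    rw [setLIntegral_congr_fun (g := fun _ => V (w (Fin.last k))) hCm (fun ω hω => by
      have : Y k ω = w (Fin.last k) := congrFun hω (Fin.last k)
      simp only [this]), setLIntegral_const, mul_comm]
  have hL : ∫⁻ ω in C, V (Y (k + 1) ω) ∂P = ∑' s', P (C ∩ Y (k + 1) ⁻¹' {s'}) * V s' := by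
    have hCu : C = ⋃ s', (C ∩ Y (k + 1) ⁻¹' {s'}) := by
      ext ω; simp
    conv_lhs => rw [hCu]
    rw [lintegral_iUnion (fun s' => hCm.inter (hY _ (measurableSet_singleton _)))]
    · refine tsum_congr fun s' => ?_
      rw [setLIntegral_congr_fun (g := fun _ => V s')
        (hCm.inter (hY _ (measurableSet_singleton _))) (fun ω hω => by
        have : Y (k + 1) ω = s' := hω.2
        simp only [this]), setLIntegral_const, mul_comm]
    · intro s s' hss
      rw [Function.onFun, Set.disjoint_left]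
      intro ω h1 h2
      exact hss ((show Y (k + 1) ω = s from h1.2).symm.trans h2.2)
  rw [hL, hR]
  calc ∑' s', P (C ∩ Y (k + 1) ⁻¹' {s'}) * V s'
      = ∑' s', P C * (p (w (Fin.last k)) s' * V s') := by
        refine tsum_congr fun s' => ?_
        rw [hstep, mul_assoc]
    _ = P C * ∑' s', p (w (Fin.last k)) s' * V s' := ENNReal.tsum_mul_left
    _ ≤ P C * V (w (Fin.last k)) := by
        gcongr
        exact hV _ (hG w hw)

/-- If `V` is superharmonic outside `K`, then almost surely either the chain visits `K` infinitely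
often or `V` does not tend to infinity along the chain. -/
theorem recurrence (P : Measure Ω) [IsProbabilityMeasure P] (Y : ℕ → Ω → S) (p : S → S → ℝ≥0∞)
    (hY : ∀ k, Measurable (Y k))
    (hmarkov : ∀ (k : ℕ) (w : ℕ → S), P {ω | ∀ j ≤ k + 1, Y j ω = w j} =
      P {ω | ∀ j ≤ k, Y j ω = w j} * p (w k) (w (k + 1)))
    (V : S → ℝ≥0∞) (hVt : ∀ s, V s ≠ ⊤) (K : Set S)
    (hV : ∀ s, s ∉ K → ∑' s', p s s' * V s' ≤ V s) :
    ∀ᵐ ω ∂P, (∃ᶠ k in atTop, Y k ω ∈ K) ∨ ∃ M : ℕ, ∃ᶠ k in atTop, V (Y k ω) ≤ M := by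
  have hVm : ∀ k, Measurable fun ω => V (Y k ω) := fun k =>
    (Measurable.of_discrete (f := V)).comp (hY k)
  -- the bad event with a fixed starting time and state
  have hbad : ∀ (m : ℕ) (s : S),
      P {ω | Y m ω = s ∧ (∀ j ≥ m, Y j ω ∉ K) ∧ Tendsto (fun k => V (Y k ω)) atTop (nhds ⊤)}
        = 0 := by
    intro m s
    let A : ℕ → Set Ω := fun N => {ω | Y m ω = s ∧ ∀ j, m ≤ j → j < m + N → Y j ω ∉ K}
    have hA : ∀ N, MeasurableSet (A N) := by
      intro N
      have : A N = (Y m ⁻¹' {s}) ∩ ⋂ j : ℕ, {ω | m ≤ j → j < m + N → Y j ω ∉ K} := by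
        ext ω; simp [A]
      rw [this]
      refine (hY m (measurableSet_singleton _)).inter (MeasurableSet.iInter fun j => ?_)
      by_cases h : m ≤ j ∧ j < m + N
      · have : {ω | m ≤ j → j < m + N → Y j ω ∉ K} = Y j ⁻¹' Kᶜ := by
          ext ω; simp [h.1, h.2]
        rw [this]
        exact hY j (Set.to_countable _).measurableSet
      · have : {ω | m ≤ j → j < m + N → Y j ω ∉ K} = univ := by
          ext ω
          simp only [mem_ofPred_eq, mem_univ, iff_true]
          intro h1 h2; exact absurd ⟨h1, h2⟩ h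
        rw [this]; exact MeasurableSet.univ
    have hint : ∀ N, ∫⁻ ω in A N, V (Y (m + N) ω) ∂P ≤ V s := by
      intro N
      induction N with
      | zero =>
        have h1 : ∫⁻ ω in A 0, V (Y (m + 0) ω) ∂P = ∫⁻ ω in A 0, V s ∂P := by
          refine setLIntegral_congr_fun (hA 0) fun ω hω => ?_
          have : Y m ω = s := hω.1
          simp only [add_zero, this]
        rw [h1, setLIntegral_const]
        calc V s * P (A 0) ≤ V s * 1 := by gcongr; exact prob_le_one
          _ = V s := mul_one _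
      | succ N ih =>
        let G : Set (Fin (m + N + 1) → S) :=
          {w | w ⟨m, by omega⟩ = s ∧ ∀ j : Fin (m + N + 1), m ≤ j.1 → w j ∉ K}
        have hAG : A (N + 1) = {ω | (fun j : Fin (m + N + 1) => Y j ω) ∈ G} := by
          ext ω
          simp only [A, G, mem_ofPred_eq]
          constructor
          · rintro ⟨h1, h2⟩
            exact ⟨h1, fun j hj => h2 j hj (by omega)⟩
          · rintro ⟨h1, h2⟩
            exact ⟨h1, fun j hj hj' => h2 ⟨j, by omega⟩ hj⟩
        have h1 := one_step P Y p hY hmarkov V K hV (m + N) G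
          (fun w hw => hw.2 (Fin.last _) (by simp))
        rw [← hAG] at h1
        calc ∫⁻ ω in A (N + 1), V (Y (m + (N + 1)) ω) ∂P
            ≤ ∫⁻ ω in A (N + 1), V (Y (m + N) ω) ∂P := h1
          _ ≤ ∫⁻ ω in A N, V (Y (m + N) ω) ∂P := by
              apply lintegral_mono_set
              intro ω hω
              exact ⟨hω.1, fun j hj hj' => hω.2 j hj (by omega)⟩
          _ ≤ V s := ih
    let f : ℕ → Ω → ℝ≥0∞ := fun N => (A N).indicator fun ω => V (Y (m + N) ω)
    have hf : ∀ N, Measurable (f N) := fun N => (hVm _).indicator (hA N)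
    have hfat : ∫⁻ ω, liminf (fun N => f N ω) atTop ∂P ≤ V s := by
      refine (lintegral_liminf_le hf).trans ?_
      refine liminf_le_of_frequently_le' (Frequently.of_forall fun N => ?_)
      simp only [f]
      rw [lintegral_indicator (hA N)]
      exact hint N
    have hfin := ae_lt_top (Measurable.liminf hf) (hfat.trans_lt (lt_top_iff_ne_top.2 (hVt s))).ne
    rw [ae_iff] at hfin
    refine measure_mono_null ?_ hfin
    rintro ω ⟨h1, h2, h3⟩
    simp only [mem_ofPred_eq, not_lt, top_le_iff]
    have h4 : ∀ N, f N ω = V (Y (m + N) ω) := by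
      intro N
      simp only [f]
      rw [indicator_of_mem]
      exact ⟨h1, fun j hj _ => h2 j hj⟩
    simp_rw [h4]
    have h5 : Tendsto (fun N => V (Y (m + N) ω)) atTop (nhds ⊤) := by
      have := h3.comp (tendsto_add_atTop_nat m)
      simpa [Function.comp_def, add_comm] using this
    exact h5.liminf_eq
  have hall : ∀ᵐ ω ∂P, ∀ (m : ℕ) (s : S),
      ¬ (Y m ω = s ∧ (∀ j ≥ m, Y j ω ∉ K) ∧ Tendsto (fun k => V (Y k ω)) atTop (nhds ⊤)) := by
    rw [ae_all_iff]; intro m
    rw [ae_all_iff]; intro s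
    exact measure_eq_zero_iff_ae_notMem.1 (hbad m s)
  filter_upwards [hall] with ω hω
  by_contra hcon
  push Not at hcon
  obtain ⟨hK, hM⟩ := hcon
  obtain ⟨m, hm⟩ := eventually_atTop.1 hK
  refine hω m (Y m ω) ⟨rfl, hm, ?_⟩
  rw [ENNReal.tendsto_nhds_top_iff_nat]
  intro M
  filter_upwards [hM M] with k hk using hk

end Generic



section Exp

theorem expMeasure_Iic_zero : expMeasure 1 (Iic (0 : ℝ)) = 0 := by
  have : IsProbabilityMeasure (expMeasure 1) := isProbabilityMeasure_expMeasure one_pos
  rw [← ofReal_cdf, cdf_expMeasure_eq one_pos]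
  simp

theorem expMeasure_Ioi_one : expMeasure 1 (Ioi (1 : ℝ)) ≠ 0 := by
  have : IsProbabilityMeasure (expMeasure 1) := isProbabilityMeasure_expMeasure one_pos
  intro h
  have h1 : expMeasure 1 (Iic (1 : ℝ)) = 1 := by
    rw [← compl_Ioi, prob_compl_eq_one_iff measurableSet_Ioi]; exact h
  rw [← ofReal_cdf, cdf_expMeasure_eq one_pos] at h1
  simp only [zero_le_one, if_true, mul_one, ENNReal.ofReal_eq_one] at h1
  have := Real.exp_pos (-1)
  linarith

end Exp

section Generic

variable {S Ω : Type*} [Countable S] [MeasurableSpace S] [MeasurableSingletonClass S]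
  [MeasurableSpace Ω]

theorem tsum_eq_top_of_frequently {f : ℕ → ℝ≥0∞} {c : ℝ≥0∞} (hc : c ≠ 0)
    (h : ∃ᶠ k in atTop, c ≤ f k) : ∑' k, f k = ⊤ := by
  by_contra hne
  have h0 := ENNReal.tendsto_atTop_zero_of_tsum_ne_top hne
  have h1 : ∀ᶠ k in atTop, f k < c := h0.eventually (gt_mem_nhds (pos_iff_ne_zero.2 hc))
  obtain ⟨k, hk1, hk2⟩ := (h.and_eventually h1).exists
  exact absurd hk1 (not_le.2 hk2)

/-- Independent rate-one exponential variables exceed `1` infinitely often along any infinite
deterministic set of indices. -/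
theorem frequently_gt_one (P : Measure Ω) [IsProbabilityMeasure P] (E : ℕ → Ω → ℝ)
    (hE : ∀ k, Measurable (E k)) (hlaw : ∀ k, P.map (E k) = expMeasure 1)
    (hind : iIndepFun E P) (I : Set ℕ) (hI : ∃ᶠ k in atTop, k ∈ I) :
    ∀ᵐ ω ∂P, ∃ᶠ k in atTop, k ∈ I ∧ 1 < E k ω := by
  classical
  let B : ℕ → Set ℝ := fun k => if k ∈ I then Ioi 1 else ∅
  have hB : ∀ k, MeasurableSet (B k) := fun k => by
    by_cases h : k ∈ I
    · simp only [B, h, if_true]; exact measurableSet_Ioi
    · simp only [B, h, if_false]; exact MeasurableSet.empty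
  let A : ℕ → Set Ω := fun k => E k ⁻¹' B k
  have hA : ∀ k, MeasurableSet (A k) := fun k => hE k (hB k)
  have hAind : iIndepSet A P := by
    rw [iIndepSet_iff_meas_biInter hA]
    intro s
    exact hind.meas_biInter (s := A) (S := s) fun k _ => ⟨B k, hB k, rfl⟩
  have hPA : ∀ k ∈ I, P (A k) = expMeasure 1 (Ioi (1 : ℝ)) := by
    intro k hk
    rw [← hlaw k, Measure.map_apply (hE k) measurableSet_Ioi]
    simp [A, B, hk]
  have hsum : ∑' k, P (A k) = ⊤ := by
    refine tsum_eq_top_of_frequently expMeasure_Ioi_one (hI.mono fun k hk => ?_)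
    exact (hPA k hk).ge
  have h1 := measure_limsup_eq_one hA hAind hsum
  have h2 : ∀ᵐ ω ∂P, ω ∈ limsup A atTop := by
    rw [← prob_compl_eq_zero_iff (MeasurableSet.measurableSet_limsup hA)] at h1
    rw [ae_iff]
    exact h1
  filter_upwards [h2] with ω hω
  rw [mem_limsup_iff_frequently_mem] at hω
  refine hω.mono fun k hk => ?_
  by_cases h : k ∈ I
  · refine ⟨h, ?_⟩
    simpa [A, B, h] using hk
  · simp [A, B, h] at hk

/-- No explosion as long as a set with bounded exit rates is visited infinitely often. -/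
theorem jumpTime_tendsto (P : Measure Ω) [IsProbabilityMeasure P] (q : S → S → ℝ)
    (Y : ℕ → Ω → S) (E : ℕ → Ω → ℝ) (hY : ∀ k, Measurable (Y k))
    (hE : ∀ k, Measurable (E k)) (hlaw : ∀ k, P.map (E k) = expMeasure 1)
    (hind : iIndepFun E P) (hYE : IndepFun (fun ω k => Y k ω) (fun ω k => E k ω) P)
    (F : Set S) (c : ℝ) (hF : ∀ s ∈ F, exitRate q s ≤ c) :
    ∀ᵐ ω ∂P, (∃ᶠ k in atTop, Y k ω ∈ F) →
      Tendsto (fun k => jumpTime q Y E k ω) atTop (nhds ⊤) := by
  -- the joint event
  let D : Set ((ℕ → S) × (ℕ → ℝ)) :=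
    {z | (∃ᶠ k in atTop, z.1 k ∈ F) → ∃ᶠ k in atTop, z.1 k ∈ F ∧ 1 < z.2 k}
  have hFm : MeasurableSet F := (Set.to_countable F).measurableSet
  have hm1 : ∀ k, MeasurableSet {z : (ℕ → S) × (ℕ → ℝ) | z.1 k ∈ F} := fun k =>
    ((measurable_pi_apply k).comp measurable_fst) hFm
  have hm2 : ∀ k, MeasurableSet {z : (ℕ → S) × (ℕ → ℝ) | 1 < z.2 k} := fun k =>
    ((measurable_pi_apply k).comp measurable_snd) measurableSet_Ioi
  have hD : MeasurableSet D := by
    have h1 : MeasurableSet {z : (ℕ → S) × (ℕ → ℝ) | ∃ᶠ k in atTop, z.1 k ∈ F} := by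
      have := MeasurableSet.measurableSet_limsup hm1
      convert this using 1
      ext z
      rw [mem_limsup_iff_frequently_mem]; rfl
    have h2 : MeasurableSet {z : (ℕ → S) × (ℕ → ℝ) |
        ∃ᶠ k in atTop, z.1 k ∈ F ∧ 1 < z.2 k} := by
      have := MeasurableSet.measurableSet_limsup (fun k => (hm1 k).inter (hm2 k))
      convert this using 1
      ext z
      rw [mem_limsup_iff_frequently_mem]; rfl
    have h3 : D = {z : (ℕ → S) × (ℕ → ℝ) | ∃ᶠ k in atTop, z.1 k ∈ F}ᶜ ∪
        {z : (ℕ → S) × (ℕ → ℝ) | ∃ᶠ k in atTop, z.1 k ∈ F ∧ 1 < z.2 k} := by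
      ext z
      simp only [D, mem_ofPred_eq, mem_union, mem_compl_iff, imp_iff_not_or]
    rw [h3]
    exact h1.compl.union h2
  have hYm : Measurable fun ω k => Y k ω := measurable_pi_iff.2 hY
  have hEm : Measurable fun ω k => E k ω := measurable_pi_iff.2 hE
  have hprod := hYE.map_prod_eq_prod_map_map hYm.aemeasurable hEm.aemeasurable
  have hPY : IsProbabilityMeasure (P.map fun ω k => Y k ω) :=
    Measure.isProbabilityMeasure_map hYm.aemeasurable
  have hPE : IsProbabilityMeasure (P.map fun ω k => E k ω) :=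
    Measure.isProbabilityMeasure_map hEm.aemeasurable
  have hae : ∀ᵐ z ∂((P.map fun ω k => Y k ω).prod (P.map fun ω k => E k ω)), z ∈ D := by
    rw [Measure.ae_prod_mem_iff_ae_ae_mem hD]
    refine Eventually.of_forall fun y => ?_
    have hsec : MeasurableSet {e : ℕ → ℝ | (y, e) ∈ D} := measurable_prodMk_left hD
    rw [ae_map_iff hEm.aemeasurable hsec]
    by_cases hy : ∃ᶠ k in atTop, y k ∈ F
    · filter_upwards [frequently_gt_one P E hE hlaw hind {k | y k ∈ F} hy] with ω hω _
      exact hω
    · exact Eventually.of_forall fun ω h => absurd h hy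
  rw [← hprod] at hae
  filter_upwards [ae_of_ae_map (hYm.prodMk hEm).aemeasurable hae] with ω hω hfreq
  have h1 := hω hfreq
  have h2 : ∑' j, ENNReal.ofReal (E j ω) / ENNReal.ofReal (exitRate q (Y j ω)) = ⊤ := by
    refine tsum_eq_top_of_frequently (c := (ENNReal.ofReal c)⁻¹)
      (ENNReal.inv_ne_zero.2 ENNReal.ofReal_ne_top) (h1.mono ?_)
    rintro k ⟨hk1, hk2⟩
    have hk2' : (1 : ℝ) < E k ω := hk2
    rw [← one_div]
    gcongr
    · rw [← ENNReal.ofReal_one]; exact ENNReal.ofReal_le_ofReal hk2'.le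
    · exact hF _ hk1
  rw [← h2]
  exact ENNReal.tendsto_nat_tsum _

/-- The holding variables are almost surely positive. -/
theorem ae_pos (P : Measure Ω) (E : ℕ → Ω → ℝ)
    (hE : ∀ k, Measurable (E k)) (hlaw : ∀ k, P.map (E k) = expMeasure 1) :
    ∀ᵐ ω ∂P, ∀ k, 0 < E k ω := by
  rw [ae_all_iff]
  intro k
  rw [ae_iff]
  have : {ω | ¬ 0 < E k ω} = E k ⁻¹' Iic 0 := by ext ω; simp
  rw [this, ← Measure.map_apply (hE k) measurableSet_Iic, hlaw k]
  exact expMeasure_Iic_zero

end Generic



section Rates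

variable {d n : ℕ}

theorem intensity_nonneg (N : Network d) {r : Reaction d} (hr : r ∈ N.reactions) (x : Fin d → ℕ) :
    0 ≤ N.intensity r x :=
  mul_nonneg (N.c_pos r hr).le (Finset.prod_nonneg fun _ _ => Nat.cast_nonneg _)

theorem src_le_of_intensity_ne_zero (N : Network d) {r : Reaction d} {x : Fin d → ℕ}
    (h : N.intensity r x ≠ 0) : r.src ≤ x := by
  intro m
  by_contra hm
  apply h
  rw [Network.intensity, Finset.prod_eq_zero (Finset.mem_univ m), mul_zero]
  rw [Nat.cast_eq_zero, Nat.descFactorial_eq_zero_iff_lt]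
  exact not_le.1 hm

theorem ofReal_mixedRate_mul (R : Fin n → Network d) (Q : Matrix (Fin n) (Fin n) ℝ)
    (hQ : ∀ i j, i ≠ j → 0 ≤ Q i j) {κ : ℝ} (hκ : 0 ≤ κ) (s s' : State d n)
    (F : State d n → ℝ≥0∞) :
    ENNReal.ofReal (mixedRate R Q κ s s') * F s' =
      ∑ r ∈ (R s.2).reactions, (open Classical in
        if s' = (s.1 + r.tgt - r.src, s.2) then
          ENNReal.ofReal ((R s.2).intensity r s.1) * F (s.1 + r.tgt - r.src, s.2) else 0)
      + ∑ j, (open Classical in if s' = (s.1, j) then
          (if j ≠ s.2 then ENNReal.ofReal (κ * Q s.2 j) * F (s.1, j) else 0) else 0) := by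
  classical
  rw [mixedRate, ENNReal.ofReal_add, add_mul]
  · congr 1
    · by_cases h : s'.2 = s.2
      · rw [if_pos h, ENNReal.ofReal_sum_of_nonneg, Finset.sum_mul]
        · refine Finset.sum_congr rfl fun r hr => ?_
          by_cases h0 : (R s.2).intensity r s.1 = 0
          · simp [h0]
          · have hle := src_le_of_intensity_ne_zero _ h0
            by_cases h1 : s'.1 + r.src = s.1 + r.tgt
            · have h2 : s' = (s.1 + r.tgt - r.src, s.2) := by
                apply Prod.ext
                · simp only [← h1]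
                  ext m; simp
                · exact h
              rw [if_pos h1, if_pos h2, ← h2]
            · have h2 : s' ≠ (s.1 + r.tgt - r.src, s.2) := by
                intro h3
                apply h1
                rw [h3]
                ext m
                have hlem : r.src m ≤ s.1 m := hle m
                simp only [Pi.add_apply, Pi.sub_apply]
                omega
              rw [if_neg h1, if_neg h2]; simp
        · intro r hr
          split_ifs
          · exact intensity_nonneg _ hr _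
          · exact le_rfl
      · rw [if_neg h]
        rw [Finset.sum_eq_zero]
        · simp
        · intro r _
          rw [if_neg]
          intro h3
          apply h
          rw [h3]
    · by_cases h : s'.1 = s.1 ∧ s'.2 ≠ s.2
      · rw [if_pos h, Finset.sum_eq_single s'.2]
        · have h2 : s' = (s.1, s'.2) := Prod.ext h.1 rfl
          rw [if_pos h2, if_pos h.2, ← h2]
        · intro j _ hj
          rw [if_neg]
          intro h3
          apply hj
          rw [h3]
        · simp
      · rw [if_neg h, Finset.sum_eq_zero]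
        · simp
        · intro j _
          by_cases h1 : s' = (s.1, j)
          · rw [if_pos h1, if_neg]
            intro h2
            apply h
            rw [h1]
            exact ⟨rfl, h2⟩
          · rw [if_neg h1]
  · split_ifs
    · refine Finset.sum_nonneg fun r hr => ?_
      split_ifs
      · exact intensity_nonneg _ hr _
      · exact le_rfl
    · exact le_rfl
  · split_ifs with h
    · exact mul_nonneg hκ (hQ _ _ (Ne.symm h.2))
    · exact le_rfl

/-- The action of the jump kernel of the mixed process on nonnegative functions. -/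
theorem tsum_mixedRate (R : Fin n → Network d) (Q : Matrix (Fin n) (Fin n) ℝ)
    (hQ : ∀ i j, i ≠ j → 0 ≤ Q i j) {κ : ℝ} (hκ : 0 ≤ κ) (s : State d n)
    (F : State d n → ℝ≥0∞) :
    ∑' s', ENNReal.ofReal (mixedRate R Q κ s s') * F s' =
      ∑ r ∈ (R s.2).reactions,
        ENNReal.ofReal ((R s.2).intensity r s.1) * F (s.1 + r.tgt - r.src, s.2)
      + ∑ j, if j ≠ s.2 then ENNReal.ofReal (κ * Q s.2 j) * F (s.1, j) else 0 := by
  classical
  simp_rw [ofReal_mixedRate_mul R Q hQ hκ s _ F]
  rw [ENNReal.tsum_add, Summable.tsum_finsetSum (fun _ _ => ENNReal.summable),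
    Summable.tsum_finsetSum (fun _ _ => ENNReal.summable)]
  congr 1
  · refine Finset.sum_congr rfl fun r _ => ?_
    rw [tsum_ite_eq]
  · refine Finset.sum_congr rfl fun j _ => ?_
    rw [tsum_ite_eq]

theorem mixedRate_nonneg (R : Fin n → Network d) (Q : Matrix (Fin n) (Fin n) ℝ)
    (hQ : ∀ i j, i ≠ j → 0 ≤ Q i j) {κ : ℝ} (hκ : 0 ≤ κ) (s s' : State d n) :
    0 ≤ mixedRate R Q κ s s' := by
  classical
  rw [mixedRate]
  refine add_nonneg ?_ ?_
  · split_ifs
    · refine Finset.sum_nonneg fun r hr => ?_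
      split_ifs
      · exact intensity_nonneg _ hr _
      · exact le_rfl
    · exact le_rfl
  · split_ifs with h
    · exact mul_nonneg hκ (hQ _ _ (Ne.symm h.2))
    · exact le_rfl

/-- The exit rate of the mixed process. -/
theorem exitRate_mixedRate (R : Fin n → Network d) (Q : Matrix (Fin n) (Fin n) ℝ)
    (hQ : ∀ i j, i ≠ j → 0 ≤ Q i j) {κ : ℝ} (hκ : 0 ≤ κ) (s : State d n) :
    exitRate (mixedRate R Q κ) s =
      ∑ r ∈ (R s.2).reactions, (R s.2).intensity r s.1
      + ∑ j, if j ≠ s.2 then κ * Q s.2 j else 0 := by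
  have h1 := tsum_mixedRate R Q hQ hκ s (fun _ => 1)
  simp only [mul_one] at h1
  have h2 : ∑ r ∈ (R s.2).reactions, ENNReal.ofReal ((R s.2).intensity r s.1)
      + ∑ j, (if j ≠ s.2 then ENNReal.ofReal (κ * Q s.2 j) else 0)
      = ENNReal.ofReal (∑ r ∈ (R s.2).reactions, (R s.2).intensity r s.1
      + ∑ j, if j ≠ s.2 then κ * Q s.2 j else 0) := by
    rw [ENNReal.ofReal_add, ENNReal.ofReal_sum_of_nonneg, ENNReal.ofReal_sum_of_nonneg]
    · congr 1
      refine Finset.sum_congr rfl fun j _ => ?_
      split_ifs <;> simp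
    · intro j _
      split_ifs with h
      · exact mul_nonneg hκ (hQ _ _ (Ne.symm h))
      · exact le_rfl
    · intro r hr
      exact intensity_nonneg _ hr _
    · exact Finset.sum_nonneg fun r hr => intensity_nonneg _ hr _
    · refine Finset.sum_nonneg fun j _ => ?_
      split_ifs with h
      · exact mul_nonneg hκ (hQ _ _ (Ne.symm h))
      · exact le_rfl
  rw [h2] at h1
  have hnn := mixedRate_nonneg R Q hQ hκ s
  have hsum : Summable (mixedRate R Q κ s) := by
    have h3 : ∑' s', ENNReal.ofReal (mixedRate R Q κ s s') ≠ ⊤ := by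
      rw [h1]; exact ENNReal.ofReal_ne_top
    have h4 := ENNReal.summable_toReal h3
    simpa only [ENNReal.toReal_ofReal (hnn _)] using h4
  rw [exitRate]
  rw [← ENNReal.ofReal_tsum_of_nonneg hnn hsum] at h1
  refine (ENNReal.ofReal_eq_ofReal_iff (tsum_nonneg hnn) ?_).1 h1
  refine add_nonneg (Finset.sum_nonneg fun r hr => intensity_nonneg _ hr _)
    (Finset.sum_nonneg fun j _ => ?_)
  split_ifs with h
  · exact mul_nonneg hκ (hQ _ _ (Ne.symm h))
  · exact le_rfl

/-- Superharmonicity for the jump chain, from the generator inequality. -/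
theorem jumpProb_superharmonic (R : Fin n → Network d) (Q : Matrix (Fin n) (Fin n) ℝ)
    (hQ : ∀ i j, i ≠ j → 0 ≤ Q i j) {κ : ℝ} (hκ : 0 ≤ κ) (s : State d n)
    (hexit : 0 < exitRate (mixedRate R Q κ) s)
    (V : State d n → ℝ) (hV : ∀ s, 0 ≤ V s)
    (hgen : ∑ r ∈ (R s.2).reactions,
        (R s.2).intensity r s.1 * (V (s.1 + r.tgt - r.src, s.2) - V s)
      + ∑ j, (if j ≠ s.2 then κ * Q s.2 j * (V (s.1, j) - V s) else 0) ≤ 0) :
    ∑' s', ENNReal.ofReal (jumpProb (mixedRate R Q κ) s s') * ENNReal.ofReal (V s')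
      ≤ ENNReal.ofReal (V s) := by
  set e := exitRate (mixedRate R Q κ) s with he
  have h0 : ∀ s', ENNReal.ofReal (jumpProb (mixedRate R Q κ) s s') * ENNReal.ofReal (V s')
      = (ENNReal.ofReal e)⁻¹ * (ENNReal.ofReal (mixedRate R Q κ s s') * ENNReal.ofReal (V s')) := by
    intro s'
    rw [jumpProb, if_neg hexit.ne', ← he, ENNReal.ofReal_div_of_pos hexit, div_eq_mul_inv]
    ring
  simp_rw [h0]
  rw [ENNReal.tsum_mul_left, tsum_mixedRate R Q hQ hκ s]
  have h1 : ∑ r ∈ (R s.2).reactions,
        ENNReal.ofReal ((R s.2).intensity r s.1) * ENNReal.ofReal (V (s.1 + r.tgt - r.src, s.2))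
      + ∑ j, (if j ≠ s.2 then ENNReal.ofReal (κ * Q s.2 j) * ENNReal.ofReal (V (s.1, j)) else 0)
      = ENNReal.ofReal (∑ r ∈ (R s.2).reactions,
        (R s.2).intensity r s.1 * V (s.1 + r.tgt - r.src, s.2)
      + ∑ j, (if j ≠ s.2 then κ * Q s.2 j * V (s.1, j) else 0)) := by
    rw [ENNReal.ofReal_add, ENNReal.ofReal_sum_of_nonneg, ENNReal.ofReal_sum_of_nonneg]
    · congr 1
      · refine Finset.sum_congr rfl fun r hr => ?_
        rw [ENNReal.ofReal_mul (intensity_nonneg _ hr _)]
      · refine Finset.sum_congr rfl fun j _ => ?_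
        split_ifs with h
        · rw [ENNReal.ofReal_mul (mul_nonneg hκ (hQ _ _ (Ne.symm h)))]
        · simp
    · intro j _
      split_ifs with h
      · exact mul_nonneg (mul_nonneg hκ (hQ _ _ (Ne.symm h))) (hV _)
      · exact le_rfl
    · intro r hr
      exact mul_nonneg (intensity_nonneg _ hr _) (hV _)
    · exact Finset.sum_nonneg fun r hr => mul_nonneg (intensity_nonneg _ hr _) (hV _)
    · refine Finset.sum_nonneg fun j _ => ?_
      split_ifs with h
      · exact mul_nonneg (mul_nonneg hκ (hQ _ _ (Ne.symm h))) (hV _)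
      · exact le_rfl
  rw [h1]
  have h2 : ∑ r ∈ (R s.2).reactions,
        (R s.2).intensity r s.1 * V (s.1 + r.tgt - r.src, s.2)
      + ∑ j, (if j ≠ s.2 then κ * Q s.2 j * V (s.1, j) else 0) ≤ e * V s := by
    rw [he, exitRate_mixedRate R Q hQ hκ s, add_mul, Finset.sum_mul, Finset.sum_mul]
    have e1 : ∑ r ∈ (R s.2).reactions,
        (R s.2).intensity r s.1 * (V (s.1 + r.tgt - r.src, s.2) - V s)
        = ∑ r ∈ (R s.2).reactions, (R s.2).intensity r s.1 * V (s.1 + r.tgt - r.src, s.2)
          - ∑ r ∈ (R s.2).reactions, (R s.2).intensity r s.1 * V s := by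
      rw [← Finset.sum_sub_distrib]
      exact Finset.sum_congr rfl fun r _ => by ring
    have e2 : ∑ j, (if j ≠ s.2 then κ * Q s.2 j * (V (s.1, j) - V s) else 0)
        = ∑ j, (if j ≠ s.2 then κ * Q s.2 j * V (s.1, j) else 0)
          - ∑ j, (if j ≠ s.2 then κ * Q s.2 j else 0) * V s := by
      rw [← Finset.sum_sub_distrib]
      exact Finset.sum_congr rfl fun j _ => by split_ifs <;> ring
    rw [e1, e2] at hgen
    linarith
  calc (ENNReal.ofReal e)⁻¹ * ENNReal.ofReal (∑ r ∈ (R s.2).reactions,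
        (R s.2).intensity r s.1 * V (s.1 + r.tgt - r.src, s.2)
      + ∑ j, (if j ≠ s.2 then κ * Q s.2 j * V (s.1, j) else 0))
      ≤ (ENNReal.ofReal e)⁻¹ * ENNReal.ofReal (e * V s) := by
        gcongr
    _ = ENNReal.ofReal (V s) := by
        rw [ENNReal.ofReal_mul hexit.le, ← mul_assoc, ENNReal.inv_mul_cancel, one_mul]
        · exact (ENNReal.ofReal_pos.2 hexit).ne'
        · exact ENNReal.ofReal_ne_top

end Rates


section Lyapunov

variable {d n : ℕ}

/-- Foster-Lyapunov criterion: a nonnegative function with finite sublevel sets that is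
superharmonic outside a set on which it is bounded rules out evanescence. -/
theorem not_tendsto_of_lyapunov (R : Fin n → Network d) (Q : Matrix (Fin n) (Fin n) ℝ)
    (hQ : ∀ i j, i ≠ j → 0 ≤ Q i j) {κ : ℝ} (hκ : 0 ≤ κ)
    (hexit : ∀ s, 0 < exitRate (mixedRate R Q κ) s)
    (V : State d n → ℝ) (hV : ∀ s, 0 ≤ V s) (K : Set (State d n))
    (hgen : ∀ s, s ∉ K → ∑ r ∈ (R s.2).reactions,
        (R s.2).intensity r s.1 * (V (s.1 + r.tgt - r.src, s.2) - V s)
      + ∑ j, (if j ≠ s.2 then κ * Q s.2 j * (V (s.1, j) - V s) else 0) ≤ 0)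
    (hK : ∃ M : ℕ, ∀ s ∈ K, V s ≤ M) (hfin : ∀ M : ℕ, {s | V s ≤ M}.Finite)
    {Ω : Type*} [MeasurableSpace Ω] (P : Measure Ω) [IsProbabilityMeasure P]
    (Z : ℝ → Ω → State d n) (s₀ : State d n) (hZ : IsCTMC P (mixedRate R Q κ) s₀ Z) :
    P {ω | Tendsto (fun t : ℝ => ∑ m, (Z t ω).1 m) atTop atTop} = 0 := by
  set q := mixedRate R Q κ with hq
  obtain ⟨Y, E, hY, -, hmarkov, hE, hlaw, hind, hYE, hpath⟩ := hZ
  have hrec := recurrence P Y (fun s s' => ENNReal.ofReal (jumpProb q s s')) hY hmarkov
    (fun s => ENNReal.ofReal (V s)) (fun s => ENNReal.ofReal_ne_top) K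
    (fun s hs => jumpProb_superharmonic R Q hQ hκ s (hexit s) V hV (hgen s hs))
  have hexpl : ∀ᵐ ω ∂P, ∀ M : ℕ, (∃ᶠ k in atTop, Y k ω ∈ {s | V s ≤ M}) →
      Tendsto (fun k => jumpTime q Y E k ω) atTop (nhds ⊤) := by
    rw [ae_all_iff]
    intro M
    obtain ⟨c, hc⟩ := ((hfin M).image (exitRate q)).bddAbove
    exact jumpTime_tendsto P q Y E hY hE hlaw hind hYE _ c
      (fun s hs => hc (mem_image_of_mem _ hs))
  have hpos := ae_pos P E hE hlaw
  rw [measure_eq_zero_iff_ae_notMem]
  filter_upwards [hrec, hexpl, hpos] with ω h1 h2 h3 h4'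
  have h4 : Tendsto (fun t : ℝ => ∑ m, (Z t ω).1 m) atTop atTop := h4'
  -- a level visited infinitely often
  obtain ⟨M, hM⟩ : ∃ M : ℕ, ∃ᶠ k in atTop, V (Y k ω) ≤ M := by
    rcases h1 with h1 | ⟨M, hM⟩
    · obtain ⟨M, hM⟩ := hK
      exact ⟨M, h1.mono fun k hk => hM _ hk⟩
    · refine ⟨M, hM.mono fun k hk => ?_⟩
      have : ENNReal.ofReal (V (Y k ω)) ≤ ENNReal.ofReal M := by
        rw [ENNReal.ofReal_natCast]; exact hk
      exact (ENNReal.ofReal_le_ofReal_iff (Nat.cast_nonneg _)).1 this
  have htend := h2 M hM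
  obtain ⟨B, hB⟩ := ((hfin M).image (fun s : State d n => ∑ m, s.1 m)).bddAbove
  obtain ⟨t₀, ht₀⟩ := eventually_atTop.1 (h4.eventually_gt_atTop B)
  have hev : ∀ᶠ k in atTop, ENNReal.ofReal t₀ < jumpTime q Y E k ω :=
    htend.eventually (lt_mem_nhds ENNReal.ofReal_lt_top)
  obtain ⟨k, hk1, hk2⟩ := (hM.and_eventually hev).exists
  -- the k-th jump time is finite and smaller than the next one
  have hfinite : ∀ j, jumpTime q Y E j ω ≠ ⊤ := by
    intro j
    rw [jumpTime]
    refine (ENNReal.sum_lt_top.2 fun i _ => ?_).ne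
    exact ENNReal.div_lt_top ENNReal.ofReal_ne_top (ENNReal.ofReal_pos.2 (hexit _)).ne'
  have hlt : jumpTime q Y E k ω < jumpTime q Y E (k + 1) ω := by
    rw [jumpTime, jumpTime, Finset.sum_range_succ]
    refine ENNReal.lt_add_right (hfinite k) ?_
    exact (ENNReal.div_pos (ENNReal.ofReal_pos.2 (h3 k)).ne' ENNReal.ofReal_ne_top).ne'
  set t := (jumpTime q Y E k ω).toReal with ht
  have hofReal : ENNReal.ofReal t = jumpTime q Y E k ω := ENNReal.ofReal_toReal (hfinite k)
  have hZt : Z t ω = Y k ω :=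
    hpath ω k t ENNReal.toReal_nonneg hofReal.ge (by rw [hofReal]; exact hlt)
  have htt : t₀ ≤ t := by
    rw [← hofReal] at hk2
    by_contra hcon
    push Not at hcon
    exact absurd hk2 (not_lt.2 (ENNReal.ofReal_le_ofReal hcon.le))
  have h5 := ht₀ t htt
  rw [hZt] at h5
  have h6 : ∑ m, (Y k ω).1 m ≤ B := hB (mem_image_of_mem _ hk1)
  omega

end Lyapunov



section Existence

variable {S : Type} [Countable S] [MeasurableSpace S] [MeasurableSingletonClass S]

/-- The law of the next state of the jump chain. -/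
noncomputable def jumpPMF (q : S → S → ℝ)
    (hprob : ∀ s, ∑' s', ENNReal.ofReal (jumpProb q s s') = 1) (s : S) : PMF S :=
  ⟨fun s' => ENNReal.ofReal (jumpProb q s s'), by
    have := (ENNReal.summable (f := fun s' => ENNReal.ofReal (jumpProb q s s'))).hasSum
    rwa [hprob s] at this⟩

/-- Sample space: a random successor for each time and state, and the holding variables. -/
abbrev Sample (S : Type) : Type := ((ℕ × S) → S) × (ℕ → ℝ)

/-- The jump chain on the sample space. -/
def chain (s₀ : S) : ℕ → Sample S → S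
  | 0, _ => s₀
  | k + 1, ω => ω.1 (k, chain s₀ k ω)

theorem chain_measurable (s₀ : S) (k : ℕ) : Measurable (chain s₀ k) := by
  induction k with
  | zero => exact measurable_const
  | succ k ih =>
    refine measurable_to_countable' fun s' => ?_
    have : chain s₀ (k + 1) ⁻¹' {s'} =
        ⋃ s, (chain s₀ k ⁻¹' {s}) ∩ {ω : Sample S | ω.1 (k, s) = s'} := by
      ext ω
      simp [chain]
    rw [this]
    refine MeasurableSet.iUnion fun s => (ih (measurableSet_singleton _)).inter ?_
    have hm : Measurable fun ω : Sample S => ω.1 (k, s) :=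
      (measurable_pi_apply (k, s)).comp measurable_fst
    exact hm (measurableSet_singleton s')

/-- Every jump rate function with a stochastic jump kernel has a realisation. -/
theorem exists_ctmc (q : S → S → ℝ)
    (hprob : ∀ s, ∑' s', ENNReal.ofReal (jumpProb q s s') = 1) (s₀ : S) :
    ∃ (Ω : Type) (_ : MeasurableSpace Ω) (P : Measure Ω) (Z : ℝ → Ω → S),
      IsProbabilityMeasure P ∧ IsCTMC P q s₀ Z := by
  classical
  have hexp : IsProbabilityMeasure (expMeasure 1) := isProbabilityMeasure_expMeasure one_pos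
  let P₁ : Measure ((ℕ × S) → S) :=
    Measure.infinitePi fun ks : ℕ × S => (jumpPMF q hprob ks.2).toMeasure
  let P₂ : Measure (ℕ → ℝ) := Measure.infinitePi fun _ : ℕ => expMeasure 1
  let P : Measure (Sample S) := P₁.prod P₂
  let E : ℕ → Sample S → ℝ := fun k ω => ω.2 k
  let Y : ℕ → Sample S → S := chain s₀
  let Z : ℝ → Sample S → S := fun t ω =>
    if h : ∃ k, jumpTime q Y E k ω ≤ ENNReal.ofReal t ∧
        ENNReal.ofReal t < jumpTime q Y E (k + 1) ω
    then Y h.choose ω else s₀
  have hY : ∀ k, Measurable (Y k) := chain_measurable s₀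
  have hE : ∀ k, Measurable (E k) := fun k => (measurable_pi_apply k).comp measurable_snd
  have hsnd : P.map Prod.snd = P₂ := by
    simp only [P]; rw [Measure.map_snd_prod]; simp
  have hlaw : ∀ k, P.map (E k) = expMeasure 1 := by
    intro k
    have : E k = (fun x : ℕ → ℝ => x k) ∘ Prod.snd := rfl
    rw [this, ← Measure.map_map (measurable_pi_apply k) measurable_snd, hsnd]
    exact Measure.infinitePi_map_eval _ k
  refine ⟨Sample S, inferInstance, P, Z, inferInstance, Y, E, hY, fun _ => rfl, ?_, hE, hlaw,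
    ?_, ?_, ?_⟩
  · -- the Markov property
    have hcyl : ∀ (k : ℕ) (p : ℕ → S), p 0 = s₀ → P {ω | ∀ j ≤ k, Y j ω = p j}
        = ∏ j ∈ Finset.range k, ENNReal.ofReal (jumpProb q (p j) (p (j + 1))) := by
      intro k p hp
      let ι : ℕ ↪ ℕ × S := ⟨fun j => (j, p j), fun a b hab => congrArg Prod.fst hab⟩
      have h1 : {ω : Sample S | ∀ j ≤ k, Y j ω = p j}
          = Prod.fst ⁻¹' (Set.pi ((Finset.range k).map ι : Finset (ℕ × S))
              (fun js => {p (js.1 + 1)})) := by
        ext ω
        simp only [mem_ofPred_eq, mem_preimage, Set.mem_pi, Finset.coe_map, mem_image,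
          Finset.mem_coe, Finset.mem_range, mem_singleton_iff]
        constructor
        · rintro h _ ⟨j, hj, rfl⟩
          have h2 := h j (by omega)
          have h3 := h (j + 1) (by omega)
          have h4 : Y (j + 1) ω = ω.1 (j, Y j ω) := rfl
          rw [h4, h2] at h3
          exact h3
        · intro h j
          induction j with
          | zero => intro _; exact hp.symm
          | succ j ih =>
            intro hj
            have h2 := ih (by omega)
            have h4 : Y (j + 1) ω = ω.1 (j, Y j ω) := rfl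
            rw [h4, h2]
            exact h _ ⟨j, by omega, rfl⟩
      have hms : MeasurableSet (Set.pi ((Finset.range k).map ι : Finset (ℕ × S))
              (fun js : ℕ × S => ({p (js.1 + 1)} : Set S))) :=
        MeasurableSet.pi (Finset.countable_toSet _) fun _ _ => measurableSet_singleton _
      rw [h1, ← Measure.map_apply measurable_fst hms]
      have hfst : P.map Prod.fst = P₁ := by
        simp only [P]; rw [Measure.map_fst_prod]; simp
      rw [hfst, Measure.infinitePi_pi _ (fun _ _ => measurableSet_singleton _), Finset.prod_map]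
      refine Finset.prod_congr rfl fun j _ => ?_
      show (jumpPMF q hprob (p j)).toMeasure {p (j + 1)} = _
      rw [PMF.toMeasure_apply_singleton _ _ (measurableSet_singleton _)]
      rfl
    intro k p
    by_cases hp : p 0 = s₀
    · rw [hcyl (k + 1) p hp, hcyl k p hp, Finset.prod_range_succ]
    · have h0 : ∀ k, {ω : Sample S | ∀ j ≤ k, Y j ω = p j} = ∅ := by
        intro k
        ext ω
        simp only [mem_ofPred_eq, mem_empty_iff_false, iff_false, not_forall]
        exact ⟨0, Nat.zero_le _, fun h => hp h.symm⟩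
      rw [h0, h0]; simp
  · -- the holding variables are independent
    rw [iIndepFun_iff_map_fun_eq_infinitePi_map hE]
    have : (fun (ω : Sample S) k => E k ω) = Prod.snd := rfl
    rw [this, hsnd]
    simp_rw [hlaw]
    rfl
  · -- chain and holding variables are independent
    have hYm : Measurable fun (ω₁ : (ℕ × S) → S) (k : ℕ) => Y k (ω₁, fun _ => 0) := by
      refine measurable_pi_iff.2 fun k => (hY k).comp ?_
      exact measurable_id.prodMk measurable_const
    have h1 := indepFun_prod (μ := P₁) (ν := P₂)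
      (X := fun (ω₁ : (ℕ × S) → S) (k : ℕ) => Y k (ω₁, fun _ => 0))
      (Y := fun ω₂ : ℕ → ℝ => ω₂) hYm measurable_id
    have h2 : (fun (ω : Sample S) (k : ℕ) => Y k (ω.1, fun _ => 0))
        = fun (ω : Sample S) (k : ℕ) => Y k ω := by
      funext ω k
      induction k with
      | zero => rfl
      | succ k ih =>
        show ω.1 (k, chain s₀ k (ω.1, fun _ => 0)) = ω.1 (k, chain s₀ k ω)
        rw [show chain s₀ k (ω.1, fun _ => 0) = chain s₀ k ω from ih]
    have h3 : IndepFun (fun (ω : Sample S) (k : ℕ) => Y k (ω.1, fun _ => 0))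
        (fun ω : Sample S => ω.2) P := h1
    rw [h2] at h3
    exact h3
  · -- the path
    intro ω k t _ h1 h2
    have hex : ∃ k, jumpTime q Y E k ω ≤ ENNReal.ofReal t ∧
        ENNReal.ofReal t < jumpTime q Y E (k + 1) ω := ⟨k, h1, h2⟩
    have hmono : Monotone fun k => jumpTime q Y E k ω := by
      intro a b hab
      exact Finset.sum_le_sum_of_subset (Finset.range_mono hab)
    have hk : hex.choose = k := by
      obtain ⟨h3, h4⟩ := hex.choose_spec
      rcases lt_trichotomy hex.choose k with h | h | h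
      · exact absurd (h4.trans_le (hmono (show hex.choose + 1 ≤ k from h))) (not_lt.2 h1)
      · exact h
      · exact absurd (h2.trans_le (hmono (show k + 1 ≤ hex.choose from h))) (not_lt.2 h3)
    show (if h : ∃ k, jumpTime q Y E k ω ≤ ENNReal.ofReal t ∧
        ENNReal.ofReal t < jumpTime q Y E (k + 1) ω then Y h.choose ω else s₀) = Y k ω
    rw [dif_pos hex, hk]

end Existence


end Pool.Agent.Switch98
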