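/-
The three-species, two-environment example and its Lyapunov function.
-/
import Pool.Agent.Lib.Helper98.SwitchTools

set_option autoImplicit false

open MeasureTheory ProbabilityTheory Filter Set
open scoped ENNReal

namespace Pool.Agent.Switch98


/-- immigration `0 → S₁` -/
def rIm : Reaction 3 := ⟨![0, 0, 0], ![1, 0, 0]⟩
/-- `S₁ → S₂` -/
def rC0 : Reaction 3 := ⟨![1, 0, 0], ![0, 1, 0]⟩
/-- `S₂ → 2 S₂` -/
def rB0 : Reaction 3 := ⟨![0, 1, 0], ![0, 2, 0]⟩
/-- `S₃ → 0` -/
def rD0 : Reaction 3 := ⟨![0, 0, 1], ![0, 0, 0]⟩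
/-- `S₁ → S₃` -/
def rC1 : Reaction 3 := ⟨![1, 0, 0], ![0, 0, 1]⟩
/-- `S₃ → 2 S₃` -/
def rB1 : Reaction 3 := ⟨![0, 0, 1], ![0, 0, 2]⟩
/-- `S₂ → 0` -/
def rD1 : Reaction 3 := ⟨![0, 1, 0], ![0, 0, 0]⟩

open Classical in
/-- Environment one: `0 → S₁`, `S₁ → S₂`, `S₂ → 2 S₂` at rate `1` and `S₃ → 0` at rate `3`. -/
noncomputable def net0 : Network 3 where
  reactions := {rIm, rC0, rB0, rD0}
  c := fun r => if r = rD0 then 3 else 1
  c_pos := fun r _ => by split_ifs <;> norm_num
  src_ne_tgt := by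
    intro r hr
    simp only [Finset.mem_insert, Finset.mem_singleton] at hr
    rcases hr with rfl | rfl | rfl | rfl <;> simp [rIm, rC0, rB0, rD0]
  monomolecular := by
    intro r hr
    simp only [Finset.mem_insert, Finset.mem_singleton] at hr
    rcases hr with rfl | rfl | rfl | rfl
    · left; ext m; fin_cases m <;> rfl
    · right; refine ⟨0, ?_⟩; ext m; fin_cases m <;> rfl
    · right; refine ⟨1, ?_⟩; ext m; fin_cases m <;> rfl
    · right; refine ⟨2, ?_⟩; ext m; fin_cases m <;> rfl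

open Classical in
/-- Environment two: `0 → S₁`, `S₁ → S₃`, `S₃ → 2 S₃` at rate `1` and `S₂ → 0` at rate `3`. -/
noncomputable def net1 : Network 3 where
  reactions := {rIm, rC1, rB1, rD1}
  c := fun r => if r = rD1 then 3 else 1
  c_pos := fun r _ => by split_ifs <;> norm_num
  src_ne_tgt := by
    intro r hr
    simp only [Finset.mem_insert, Finset.mem_singleton] at hr
    rcases hr with rfl | rfl | rfl | rfl <;> simp [rIm, rC1, rB1, rD1]
  monomolecular := by
    intro r hr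
    simp only [Finset.mem_insert, Finset.mem_singleton] at hr
    rcases hr with rfl | rfl | rfl | rfl
    · left; ext m; fin_cases m <;> rfl
    · right; refine ⟨0, ?_⟩; ext m; fin_cases m <;> rfl
    · right; refine ⟨2, ?_⟩; ext m; fin_cases m <;> rfl
    · right; refine ⟨1, ?_⟩; ext m; fin_cases m <;> rfl

theorem sum_net0 (f : Reaction 3 → ℝ) :
    ∑ r ∈ net0.reactions, f r = f rIm + f rC0 + f rB0 + f rD0 := by
  classical
  have h1 : rIm ∉ ({rC0, rB0, rD0} : Finset (Reaction 3)) := by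
    simp [rIm, rC0, rB0, rD0]
  have h2 : rC0 ∉ ({rB0, rD0} : Finset (Reaction 3)) := by
    simp [rC0, rB0, rD0]
  have h3 : rB0 ∉ ({rD0} : Finset (Reaction 3)) := by
    simp [rB0, rD0]
  show ∑ r ∈ ({rIm, rC0, rB0, rD0} : Finset (Reaction 3)), f r = _
  rw [Finset.sum_insert h1, Finset.sum_insert h2, Finset.sum_insert h3, Finset.sum_singleton]
  ring

theorem sum_net1 (f : Reaction 3 → ℝ) :
    ∑ r ∈ net1.reactions, f r = f rIm + f rC1 + f rB1 + f rD1 := by
  classical
  have h1 : rIm ∉ ({rC1, rB1, rD1} : Finset (Reaction 3)) := by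
    simp [rIm, rC1, rB1, rD1]
  have h2 : rC1 ∉ ({rB1, rD1} : Finset (Reaction 3)) := by
    simp [rC1, rB1, rD1]
  have h3 : rB1 ∉ ({rD1} : Finset (Reaction 3)) := by
    simp [rB1, rD1]
  show ∑ r ∈ ({rIm, rC1, rB1, rD1} : Finset (Reaction 3)), f r = _
  rw [Finset.sum_insert h1, Finset.sum_insert h2, Finset.sum_insert h3, Finset.sum_singleton]
  ring

theorem int0_im (x : Fin 3 → ℕ) : net0.intensity rIm x = 1 := by
  simp [Network.intensity, net0, rIm, rD0, Fin.prod_univ_three]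

theorem int0_c (x : Fin 3 → ℕ) : net0.intensity rC0 x = x 0 := by
  simp [Network.intensity, net0, rC0, rD0, Fin.prod_univ_three]

theorem int0_b (x : Fin 3 → ℕ) : net0.intensity rB0 x = x 1 := by
  simp [Network.intensity, net0, rB0, rD0, Fin.prod_univ_three]

theorem int0_d (x : Fin 3 → ℕ) : net0.intensity rD0 x = 3 * x 2 := by
  simp [Network.intensity, net0, rD0, Fin.prod_univ_three]

theorem int1_im (x : Fin 3 → ℕ) : net1.intensity rIm x = 1 := by
  simp [Network.intensity, net1, rIm, rD1, Fin.prod_univ_three]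

theorem int1_c (x : Fin 3 → ℕ) : net1.intensity rC1 x = x 0 := by
  simp [Network.intensity, net1, rC1, rD1, Fin.prod_univ_three]

theorem int1_b (x : Fin 3 → ℕ) : net1.intensity rB1 x = x 2 := by
  simp [Network.intensity, net1, rB1, rD1, Fin.prod_univ_three]

theorem int1_d (x : Fin 3 → ℕ) : net1.intensity rD1 x = 3 * x 1 := by
  simp [Network.intensity, net1, rD1, Fin.prod_univ_three]

/-- The matrix of environment one. -/
def mat0 : Matrix (Fin 3) (Fin 3) ℝ := !![-1, 0, 0; 1, 1, 0; 0, 0, -3]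

/-- The matrix of environment two. -/
def mat1 : Matrix (Fin 3) (Fin 3) ℝ := !![-1, 0, 0; 0, -3, 0; 1, 0, 1]

theorem const_isLittleO (c : ℝ) :
    (fun _ : Fin 3 → ℕ => c) =o[comap (fun x : Fin 3 → ℕ => ∑ l, x l) atTop]
      fun x => ((∑ l, x l : ℕ) : ℝ) := by
  rw [Asymptotics.isLittleO_const_left]
  right
  have h1 : Tendsto (fun x : Fin 3 → ℕ => ∑ l, x l)
    (comap (fun x : Fin 3 → ℕ => ∑ l, x l) atTop) atTop := tendsto_comap
  have h2 : Tendsto (fun n : ℕ => (n : ℝ)) atTop atTop := tendsto_natCast_atTop_atTop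
  have h3 := tendsto_norm_atTop_atTop.comp (h2.comp h1)
  exact h3

theorem isMatrix_net0 : net0.IsMatrix mat0 := by
  intro m
  have h : (fun x : Fin 3 → ℕ => net0.drift x m - (mat0.mulVec fun l => (x l : ℝ)) m)
      = fun _ => if m = 0 then 1 else 0 := by
    funext x
    rw [Network.drift, sum_net0, int0_im, int0_c, int0_b, int0_d]
    fin_cases m <;>
      simp [mat0, Matrix.mulVec, dotProduct, Fin.sum_univ_three, rIm, rC0, rB0, rD0] <;> ring
  rw [h]
  exact const_isLittleO _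

theorem isMatrix_net1 : net1.IsMatrix mat1 := by
  intro m
  have h : (fun x : Fin 3 → ℕ => net1.drift x m - (mat1.mulVec fun l => (x l : ℝ)) m)
      = fun _ => if m = 0 then 1 else 0 := by
    funext x
    rw [Network.drift, sum_net1, int1_im, int1_c, int1_b, int1_d]
    fin_cases m <;>
      simp [mat1, Matrix.mulVec, dotProduct, Fin.sum_univ_three, rIm, rC1, rB1, rD1] <;> ring
  rw [h]
  exact const_isLittleO _



/-- Harmonic numbers. -/
noncomputable def hsum (n : ℕ) : ℝ := ∑ k ∈ Finset.range n, 1 / ((k : ℝ) + 1)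

theorem hsum_zero : hsum 0 = 0 := by simp [hsum]

theorem hsum_succ (n : ℕ) : hsum (n + 1) = hsum n + 1 / ((n : ℝ) + 1) := by
  simp [hsum, Finset.sum_range_succ]

theorem hsum_nonneg (n : ℕ) : 0 ≤ hsum n := Finset.sum_nonneg fun _ _ => by positivity

theorem hsum_le (n : ℕ) : hsum n ≤ n := by
  induction n with
  | zero => simp [hsum_zero]
  | succ n ih =>
    rw [hsum_succ]
    have : 1 / ((n : ℝ) + 1) ≤ 1 := by
      rw [div_le_one (by positivity)]
      have : (0 : ℝ) ≤ n := Nat.cast_nonneg n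
      linarith
    push_cast
    linarith

theorem hsum_tendsto : Tendsto hsum atTop atTop := by
  have := Real.tendsto_sum_range_one_div_nat_succ_atTop
  exact this

/-- The one-species building block of the Lyapunov function; `b` says whether the species is
growing in the current environment. -/
noncomputable def gfun (κ : ℝ) (n : ℕ) (b : Bool) : ℝ :=
  hsum n + if n ≠ 0 ∧ b = true then 2 / κ else 0

theorem gfun_zero (κ : ℝ) (b : Bool) : gfun κ 0 b = 0 := by simp [gfun, hsum_zero]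

theorem gfun_false (κ : ℝ) (n : ℕ) : gfun κ n false = hsum n := by simp [gfun]

theorem gfun_true (κ : ℝ) (n : ℕ) : gfun κ (n + 1) true = hsum (n + 1) + 2 / κ := by simp [gfun]

theorem hsum_le_gfun {κ : ℝ} (hκ : 0 < κ) (n : ℕ) (b : Bool) : hsum n ≤ gfun κ n b := by
  rw [gfun]
  split_ifs
  · have : 0 ≤ 2 / κ := by positivity
    linarith
  · linarith

theorem gfun_nonneg {κ : ℝ} (hκ : 0 < κ) (n : ℕ) (b : Bool) : 0 ≤ gfun κ n b :=
  (hsum_nonneg n).trans (hsum_le_gfun hκ n b)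

theorem grow_ineq {κ : ℝ} (hκ : 0 < κ) (n : ℕ) :
    (n : ℝ) * (gfun κ (n + 1) true ^ 2 - gfun κ n true ^ 2)
      + κ * (gfun κ n false ^ 2 - gfun κ n true ^ 2) ≤ -2 * gfun κ n true + 1 + 4 / κ := by
  rcases n with _ | n
  · simp only [gfun_zero]
    have : 0 ≤ 4 / κ := by positivity
    norm_num
    linarith
  · set h := hsum (n + 1) with hh
    have h0 : 0 ≤ h := hsum_nonneg _
    rw [gfun_true, gfun_true, gfun_false, hsum_succ (n + 1), ← hh]
    set y : ℝ := ((n + 1 : ℕ) : ℝ) with hy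
    have hy0 : 0 < y := by rw [hy]; positivity
    have hk : 0 < 2 / κ := by positivity
    have e1 : y * ((h + 1 / (y + 1) + 2 / κ) ^ 2 - (h + 2 / κ) ^ 2)
        = 2 * (h + 2 / κ) * (y / (y + 1)) + y / (y + 1) * (1 / (y + 1)) := by
      field_simp; ring
    have e2 : κ * (h ^ 2 - (h + 2 / κ) ^ 2) = -4 * (h + 2 / κ) + 4 / κ := by
      field_simp; ring
    rw [e1, e2]
    have hr : y / (y + 1) ≤ 1 := by rw [div_le_one (by positivity)]; linarith
    have hr0 : 0 ≤ y / (y + 1) := by positivity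
    have hr2 : 1 / (y + 1) ≤ 1 := by rw [div_le_one (by positivity)]; linarith
    have hr20 : 0 ≤ 1 / (y + 1) := by positivity
    have i1 : 2 * (h + 2 / κ) * (y / (y + 1)) ≤ 2 * (h + 2 / κ) * 1 :=
      mul_le_mul_of_nonneg_left hr (by positivity)
    have i2 : y / (y + 1) * (1 / (y + 1)) ≤ 1 * 1 :=
      mul_le_mul hr hr2 hr20 (by norm_num)
    linarith

theorem decay_ineq {κ : ℝ} (hκ : 0 < κ) (n : ℕ) :
    3 * (n : ℝ) * (gfun κ (n - 1) false ^ 2 - gfun κ n false ^ 2)
      + κ * (gfun κ n true ^ 2 - gfun κ n false ^ 2) ≤ -2 * gfun κ n false + 3 + 4 / κ := by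
  rcases n with _ | n
  · simp only [gfun_zero]
    have : 0 ≤ 4 / κ := by positivity
    norm_num
    linarith
  · rw [gfun_true, gfun_false, gfun_false, Nat.add_sub_cancel]
    set h := hsum (n + 1) with hh
    have h0 : 0 ≤ h := hsum_nonneg _
    have hn : hsum n = h - 1 / ((n : ℝ) + 1) := by rw [hh, hsum_succ]; ring
    rw [hn]
    push_cast
    set y : ℝ := (n : ℝ) + 1 with hy
    have hy0 : 1 ≤ y := by
      rw [hy]
      have : (0 : ℝ) ≤ n := Nat.cast_nonneg n
      linarith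
    have hy1 : 0 < y := by linarith
    have e1 : 3 * y * ((h - 1 / y) ^ 2 - h ^ 2) = -6 * h + 3 * (1 / y) := by
      field_simp; ring
    have e2 : κ * ((h + 2 / κ) ^ 2 - h ^ 2) = 4 * h + 4 / κ := by
      field_simp; ring
    rw [e1, e2]
    have : 1 / y ≤ 1 := by rw [div_le_one hy1]; exact hy0
    linarith

theorem conv_ineq {κ : ℝ} (hκ : 0 < κ) (n : ℕ) :
    gfun κ (n + 1) true ^ 2 - gfun κ n true ^ 2 ≤ (2 + 2 / κ) ^ 2 := by
  have hk : 0 < 2 / κ := by positivity
  rcases n with _ | n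
  · rw [gfun_zero, gfun_true, hsum_succ, hsum_zero]
    norm_num
    nlinarith
  · rw [gfun_true, gfun_true, hsum_succ (n + 1)]
    set h := hsum (n + 1) with hh
    have h0 : 0 ≤ h := hsum_nonneg _
    have h1 : h ≤ ((n + 1 : ℕ) : ℝ) := hsum_le _
    set y : ℝ := ((n + 1 : ℕ) : ℝ) with hy
    have hy0 : 0 < y := by rw [hy]; positivity
    have e1 : (h + 1 / (y + 1) + 2 / κ) ^ 2 - (h + 2 / κ) ^ 2
        = 2 * (h / (y + 1)) + 2 * (2 / κ) * (1 / (y + 1)) + (1 / (y + 1)) ^ 2 := by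
      field_simp; ring
    rw [e1]
    have i1 : h / (y + 1) ≤ 1 := by rw [div_le_one (by positivity)]; linarith
    have i2 : 1 / (y + 1) ≤ 1 := by rw [div_le_one (by positivity)]; linarith
    have i20 : 0 ≤ 1 / (y + 1) := by positivity
    have i3 : 2 * (2 / κ) * (1 / (y + 1)) ≤ 2 * (2 / κ) * 1 :=
      mul_le_mul_of_nonneg_left i2 (by positivity)
    have i4 : (1 / (y + 1)) ^ 2 ≤ 1 := pow_le_one₀ i20 i2
    nlinarith [sq_nonneg (2 / κ)]

/-- The Lyapunov function. -/
noncomputable def lyap (κ : ℝ) (s : State 3 2) : ℝ :=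
  gfun κ (s.1 1) (decide (s.2 = 0)) ^ 2 + gfun κ (s.1 2) (decide (s.2 = 1)) ^ 2
    + ((2 + 2 / κ) ^ 2 + 1) * (s.1 0 : ℝ)

theorem finite_level (C : ℝ) :
    {s : State 3 2 | (s.1 0 : ℝ) ≤ C ∧ hsum (s.1 1) ≤ C ∧ hsum (s.1 2) ≤ C}.Finite := by
  obtain ⟨N, hN⟩ := (eventually_atTop.1 (hsum_tendsto.eventually_gt_atTop C))
  obtain ⟨N', hN'⟩ := exists_nat_ge C
  have h1 : {s : State 3 2 | (s.1 0 : ℝ) ≤ C ∧ hsum (s.1 1) ≤ C ∧ hsum (s.1 2) ≤ C}
      ⊆ (Set.Iic (fun _ : Fin 3 => max N N')) ×ˢ (Set.univ : Set (Fin 2)) := by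
    rintro ⟨x, i⟩ ⟨h0, h1, h2⟩
    simp only at h0 h1 h2
    refine ⟨?_, mem_univ _⟩
    have a0 : x 0 ≤ N' := by exact_mod_cast h0.trans hN'
    have a1 : x 1 ≤ N := by
      by_contra hc
      push Not at hc
      exact absurd h1 (not_le.2 (hN _ hc.le))
    have a2 : x 2 ≤ N := by
      by_contra hc
      push Not at hc
      exact absurd h2 (not_le.2 (hN _ hc.le))
    intro m
    fin_cases m
    · exact a0.trans (le_max_right _ _)
    · exact a1.trans (le_max_left _ _)
    · exact a2.trans (le_max_left _ _)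
  exact ((Set.finite_Iic _).prod Set.finite_univ).subset h1


end Pool.Agent.Switch98
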