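/-
Irreducibility and non-evanescence for the example.
-/
import Pool.Agent.Lib.Helper98.SwitchExample

set_option autoImplicit false

open MeasureTheory ProbabilityTheory Filter Set
open scoped ENNReal

namespace Pool.Agent.Switch98


/-- The two environments of the example. -/
noncomputable def exNet : Fin 2 → Network 3 := ![net0, net1]

/-- The environment chain of the example: switching at rate one in both directions. -/
def exQ : Matrix (Fin 2) (Fin 2) ℝ := !![-1, 1; 1, -1]

theorem exQ_offdiag : ∀ i j, i ≠ j → 0 ≤ exQ i j := by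
  intro i j h
  fin_cases i <;> fin_cases j <;> simp_all [exQ]

theorem exQ_irred : IsIrreducibleRateMatrix exQ := by
  refine ⟨exQ_offdiag, ?_, ?_⟩
  · intro i; fin_cases i <;> simp [exQ, Fin.sum_univ_two]
  · intro i j
    fin_cases i <;> fin_cases j
    · exact Relation.ReflTransGen.refl
    · exact Relation.ReflTransGen.single ⟨by decide, by simp [exQ]⟩
    · exact Relation.ReflTransGen.single ⟨by decide, by simp [exQ]⟩
    · exact Relation.ReflTransGen.refl

theorem exit_pos {κ : ℝ} (hκ : 0 < κ) (s : State 3 2) : 0 < exitRate (mixedRate exNet exQ κ) s := by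
  rw [exitRate_mixedRate exNet exQ exQ_offdiag hκ.le s]
  refine add_pos_of_nonneg_of_pos
    (Finset.sum_nonneg fun r hr => intensity_nonneg _ hr _) ?_
  obtain ⟨x, i⟩ := s
  fin_cases i <;> simp [exQ, hκ]

theorem lyap_nonneg {κ : ℝ} (hκ : 0 < κ) (s : State 3 2) : 0 ≤ lyap κ s := by
  rw [lyap]
  positivity

/-- The drift inequality for the Lyapunov function. -/
theorem gen_le {κ : ℝ} (hκ : 0 < κ) (s : State 3 2) :
    ∑ r ∈ (exNet s.2).reactions,
        (exNet s.2).intensity r s.1 * (lyap κ (s.1 + r.tgt - r.src, s.2) - lyap κ s)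
      + ∑ j, (if j ≠ s.2 then κ * exQ s.2 j * (lyap κ (s.1, j) - lyap κ s) else 0)
    ≤ ((2 + 2 / κ) ^ 2 + 5 + 8 / κ) - (s.1 0 : ℝ)
      - 2 * gfun κ (s.1 1) (decide (s.2 = 0)) - 2 * gfun κ (s.1 2) (decide (s.2 = 1)) := by
  obtain ⟨x, i⟩ := s
  have hx0 : (x 0 : ℝ) * (((x 0 - 1 : ℕ) : ℝ) - x 0) = - x 0 := by
    rcases Nat.eq_zero_or_pos (x 0) with h | h
    · simp [h]
    · rw [Nat.cast_sub h]; push_cast; ring
  have hx0n : (0 : ℝ) ≤ x 0 := Nat.cast_nonneg _
  fin_cases i
  · -- environment one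
    simp only [exNet, Matrix.cons_val_zero, Fin.zero_eta, Fin.isValue]
    rw [sum_net0, int0_im, int0_c, int0_b, int0_d]
    have hsw : ∑ j : Fin 2, (if j ≠ 0 then κ * exQ 0 j * (lyap κ (x, j) - lyap κ (x, 0)) else 0)
        = κ * (lyap κ (x, 1) - lyap κ (x, 0)) := by
      simp [Fin.sum_univ_two, exQ]
    rw [hsw]
    simp only [lyap, rIm, rC0, rB0, rD0, Pi.add_apply, Pi.sub_apply, Matrix.cons_val, Fin.isValue,
      add_zero, Nat.sub_zero, decide_true, zero_ne_one, one_ne_zero, decide_false]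
    have hG := grow_ineq hκ (x 1)
    have hD := decay_ineq hκ (x 2)
    have hC := mul_le_mul_of_nonneg_left (conv_ineq hκ (x 1)) hx0n
    rw [show x 1 + 2 - 1 = x 1 + 1 by omega]
    push_cast
    have h8 : 4 / κ + 4 / κ = 8 / κ := by ring
    have hB : ((2 + 2 / κ) ^ 2 + 1) * ((x 0 : ℝ) * (((x 0 - 1 : ℕ) : ℝ) - x 0))
        = ((2 + 2 / κ) ^ 2 + 1) * (- x 0) := by rw [hx0]
    linarith [hG, hD, hC, hB, h8]
  · simp only [exNet, Matrix.cons_val_one, Matrix.cons_val_zero, Fin.mk_one, Fin.isValue]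
    rw [sum_net1, int1_im, int1_c, int1_b, int1_d]
    have hsw : ∑ j : Fin 2, (if j ≠ 1 then κ * exQ 1 j * (lyap κ (x, j) - lyap κ (x, 1)) else 0)
        = κ * (lyap κ (x, 0) - lyap κ (x, 1)) := by
      simp [Fin.sum_univ_two, exQ]
    rw [hsw]
    simp only [lyap, rIm, rC1, rB1, rD1, Pi.add_apply, Pi.sub_apply, Matrix.cons_val, Fin.isValue,
      add_zero, Nat.sub_zero, decide_true, zero_ne_one, one_ne_zero, decide_false]
    have hG := grow_ineq hκ (x 2)
    have hD := decay_ineq hκ (x 1)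
    have hC := mul_le_mul_of_nonneg_left (conv_ineq hκ (x 2)) hx0n
    rw [show x 2 + 2 - 1 = x 2 + 1 by omega]
    push_cast
    have h8 : 4 / κ + 4 / κ = 8 / κ := by ring
    have hB : ((2 + 2 / κ) ^ 2 + 1) * ((x 0 : ℝ) * (((x 0 - 1 : ℕ) : ℝ) - x 0))
        = ((2 + 2 / κ) ^ 2 + 1) * (- x 0) := by rw [hx0]
    linarith [hG, hD, hC, hB, h8]

theorem rate_pos_reaction {d n : ℕ} (R : Fin n → Network d) (Q : Matrix (Fin n) (Fin n) ℝ)
    (κ : ℝ) {x x' : Fin d → ℕ} {i : Fin n} {r : Reaction d} (hr : r ∈ (R i).reactions)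
    (hint : 0 < (R i).intensity r x) (hx : x' + r.src = x + r.tgt) :
    0 < mixedRate R Q κ (x, i) (x', i) := by
  classical
  rw [mixedRate]
  refine add_pos_of_pos_of_nonneg ?_ ?_
  · rw [if_pos rfl]
    refine Finset.sum_pos' (fun r' hr' => ?_) ⟨r, hr, ?_⟩
    · split_ifs
      · exact intensity_nonneg _ hr' _
      · exact le_rfl
    · simp only
      rw [if_pos hx]; exact hint
  · rw [if_neg]; simp

theorem rate_pos_switch {d n : ℕ} (R : Fin n → Network d) (Q : Matrix (Fin n) (Fin n) ℝ)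
    {κ : ℝ} (hκ : 0 < κ) (x : Fin d → ℕ) {i j : Fin n} (hij : i ≠ j) (hQ : 0 < Q i j) :
    0 < mixedRate R Q κ (x, i) (x, j) := by
  classical
  rw [mixedRate]
  refine add_pos_of_nonneg_of_pos ?_ ?_
  · rw [if_neg]; exact Ne.symm hij
  · rw [if_pos ⟨rfl, Ne.symm hij⟩]
    exact mul_pos hκ hQ

/-- The mixed process of the example is irreducible. -/
theorem ex_irreducible {κ : ℝ} (hκ : 0 < κ) (s s' : State 3 2) :
    Relation.ReflTransGen (fun a b => 0 < mixedRate exNet exQ κ a b) s s' := by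
  classical
  set Rr := fun a b => 0 < mixedRate exNet exQ κ a b with hRr
  have hsw : ∀ x (i j : Fin 2), Relation.ReflTransGen Rr (x, i) (x, j) := by
    intro x i j
    by_cases h : i = j
    · subst h; exact Relation.ReflTransGen.refl
    · refine Relation.ReflTransGen.single (rate_pos_switch exNet exQ hκ x h ?_)
      fin_cases i <;> fin_cases j <;> simp_all [exQ]
  have him : ∀ a b c, Relation.ReflTransGen Rr (![a, b, c], 0) (![a + 1, b, c], 0) := by
    intro a b c
    refine Relation.ReflTransGen.single (rate_pos_reaction exNet exQ κ (r := rIm) ?_ ?_ ?_)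
    · show rIm ∈ net0.reactions
      simp [net0]
    · show 0 < net0.intensity rIm _
      rw [int0_im]; norm_num
    · ext m; fin_cases m <;> simp [rIm]
  have hc0 : ∀ a b c, Relation.ReflTransGen Rr (![a + 1, b, c], 0) (![a, b + 1, c], 0) := by
    intro a b c
    refine Relation.ReflTransGen.single (rate_pos_reaction exNet exQ κ (r := rC0) ?_ ?_ ?_)
    · show rC0 ∈ net0.reactions
      simp [net0]
    · show 0 < net0.intensity rC0 _
      rw [int0_c]; simp; positivity
    · ext m; fin_cases m <;> simp [rC0]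
  have hd0 : ∀ a b c, Relation.ReflTransGen Rr (![a, b, c + 1], 0) (![a, b, c], 0) := by
    intro a b c
    refine Relation.ReflTransGen.single (rate_pos_reaction exNet exQ κ (r := rD0) ?_ ?_ ?_)
    · show rD0 ∈ net0.reactions
      simp [net0]
    · show 0 < net0.intensity rD0 _
      rw [int0_d]; simp; positivity
    · ext m; fin_cases m <;> simp [rD0]
  have hc1 : ∀ a b c, Relation.ReflTransGen Rr (![a + 1, b, c], 1) (![a, b, c + 1], 1) := by
    intro a b c
    refine Relation.ReflTransGen.single (rate_pos_reaction exNet exQ κ (r := rC1) ?_ ?_ ?_)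
    · show rC1 ∈ net1.reactions
      simp [net1]
    · show 0 < net1.intensity rC1 _
      rw [int1_c]; simp; positivity
    · ext m; fin_cases m <;> simp [rC1]
  have hd1 : ∀ a b c, Relation.ReflTransGen Rr (![a, b + 1, c], 1) (![a, b, c], 1) := by
    intro a b c
    refine Relation.ReflTransGen.single (rate_pos_reaction exNet exQ κ (r := rD1) ?_ ?_ ?_)
    · show rD1 ∈ net1.reactions
      simp [net1]
    · show 0 < net1.intensity rD1 _
      rw [int1_d]; simp; positivity
    · ext m; fin_cases m <;> simp [rD1]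
  -- down to the empty state
  have hdown1 : ∀ a b c, Relation.ReflTransGen Rr (![a, b, c], 0) (![0, b + a, c], 0) := by
    intro a
    induction a with
    | zero => intro b c; exact Relation.ReflTransGen.refl
    | succ a ih =>
      intro b c
      have := (hc0 a b c).trans (ih (b + 1) c)
      rwa [show b + 1 + a = b + (a + 1) by omega] at this
  have hdown2 : ∀ c b, Relation.ReflTransGen Rr (![0, b, c], 0) (![0, b, 0], 0) := by
    intro c
    induction c with
    | zero => intro b; exact Relation.ReflTransGen.refl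
    | succ c ih => intro b; exact (hd0 0 b c).trans (ih b)
  have hdown3 : ∀ b, Relation.ReflTransGen Rr (![0, b, 0], 1) (![0, 0, 0], 1) := by
    intro b
    induction b with
    | zero => exact Relation.ReflTransGen.refl
    | succ b ih => exact (hd1 0 b 0).trans ih
  have hdown : ∀ a b c (i : Fin 2), Relation.ReflTransGen Rr (![a, b, c], i) (![0, 0, 0], 0) := by
    intro a b c i
    exact (hsw _ i 0).trans ((hdown1 a b c).trans ((hdown2 c (b + a)).trans
      ((hsw _ 0 1).trans ((hdown3 _).trans (hsw _ 1 0)))))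
  -- up from the empty state
  have hup1 : ∀ a b c, Relation.ReflTransGen Rr (![0, b, c], 0) (![a, b, c], 0) := by
    intro a
    induction a with
    | zero => intro b c; exact Relation.ReflTransGen.refl
    | succ a ih => intro b c; exact (ih b c).trans (him a b c)
  have hup2 : ∀ b, Relation.ReflTransGen Rr (![0, 0, 0], 0) (![0, b, 0], 0) := by
    intro b
    induction b with
    | zero => exact Relation.ReflTransGen.refl
    | succ b ih => exact ih.trans ((him 0 b 0).trans (hc0 0 b 0))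
  have hup3 : ∀ c b, Relation.ReflTransGen Rr (![0, b, 0], 0) (![0, b, c], 0) := by
    intro c
    induction c with
    | zero => intro b; exact Relation.ReflTransGen.refl
    | succ c ih =>
      intro b
      exact (ih b).trans ((him 0 b c).trans ((hsw _ 0 1).trans ((hc1 0 b c).trans (hsw _ 1 0))))
  have hup : ∀ a b c (i : Fin 2), Relation.ReflTransGen Rr (![0, 0, 0], 0) (![a, b, c], i) := by
    intro a b c i
    exact (hup2 b).trans ((hup3 c b).trans ((hup1 a b c).trans (hsw _ 0 i)))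
  have heta : ∀ x : Fin 3 → ℕ, x = ![x 0, x 1, x 2] := by
    intro x; ext m; fin_cases m <;> rfl
  obtain ⟨x, i⟩ := s
  obtain ⟨x', i'⟩ := s'
  rw [heta x, heta x']
  exact (hdown _ _ _ i).trans (hup _ _ _ i')


theorem ex_prob {κ : ℝ} (hκ : 0 < κ) (s : State 3 2) :
    ∑' s', ENNReal.ofReal (jumpProb (mixedRate exNet exQ κ) s s') = 1 := by
  have he := exit_pos hκ s
  have h0 : ∀ s', ENNReal.ofReal (jumpProb (mixedRate exNet exQ κ) s s')
      = (ENNReal.ofReal (exitRate (mixedRate exNet exQ κ) s))⁻¹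
        * (ENNReal.ofReal (mixedRate exNet exQ κ s s') * 1) := by
    intro s'
    rw [jumpProb, if_neg he.ne', ENNReal.ofReal_div_of_pos he, div_eq_mul_inv, mul_one]
    ring
  simp_rw [h0]
  rw [ENNReal.tsum_mul_left, tsum_mixedRate exNet exQ exQ_offdiag hκ.le s (fun _ => 1)]
  have h1 : ∑ r ∈ (exNet s.2).reactions, ENNReal.ofReal ((exNet s.2).intensity r s.1) * 1
      + ∑ j, (if j ≠ s.2 then ENNReal.ofReal (κ * exQ s.2 j) * 1 else 0)
      = ENNReal.ofReal (exitRate (mixedRate exNet exQ κ) s) := by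
    rw [exitRate_mixedRate exNet exQ exQ_offdiag hκ.le s, ENNReal.ofReal_add,
      ENNReal.ofReal_sum_of_nonneg, ENNReal.ofReal_sum_of_nonneg]
    · simp only [mul_one]
      congr 1
      refine Finset.sum_congr rfl fun j _ => ?_
      split_ifs <;> simp
    · intro j _
      split_ifs with h
      · exact mul_nonneg hκ.le (exQ_offdiag _ _ (Ne.symm h))
      · exact le_rfl
    · intro r hr
      exact intensity_nonneg _ hr _
    · exact Finset.sum_nonneg fun r hr => intensity_nonneg _ hr _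
    · refine Finset.sum_nonneg fun j _ => ?_
      split_ifs with h
      · exact mul_nonneg hκ.le (exQ_offdiag _ _ (Ne.symm h))
      · exact le_rfl
  rw [h1, ENNReal.inv_mul_cancel (ENNReal.ofReal_pos.2 he).ne' ENNReal.ofReal_ne_top]

/-- No state of the example is evanescent. -/
theorem ex_not_evanescent {κ : ℝ} (hκ : 0 < κ) (s : State 3 2) :
    ¬ Evanescent (mixedRate exNet exQ κ) s := by
  rintro ⟨Ω, mΩ, P, Z, hP, hZ, hpos⟩
  set B : ℝ := (2 + 2 / κ) ^ 2 + 1 with hB
  set C : ℝ := (2 + 2 / κ) ^ 2 + 5 + 8 / κ with hC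
  let K : Set (State 3 2) := {s | (s.1 0 : ℝ)
      + 2 * gfun κ (s.1 1) (decide (s.2 = 0)) + 2 * gfun κ (s.1 2) (decide (s.2 = 1)) ≤ C}
  have hKfin : K.Finite := by
    refine (finite_level C).subset ?_
    intro s hs
    have hs' : (s.1 0 : ℝ) + 2 * gfun κ (s.1 1) (decide (s.2 = 0))
      + 2 * gfun κ (s.1 2) (decide (s.2 = 1)) ≤ C := hs
    have h1 := gfun_nonneg hκ (s.1 1) (decide (s.2 = 0))
    have h2 := gfun_nonneg hκ (s.1 2) (decide (s.2 = 1))
    have h3 := hsum_le_gfun hκ (s.1 1) (decide (s.2 = 0))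
    have h4 := hsum_le_gfun hκ (s.1 2) (decide (s.2 = 1))
    have h0 : (0 : ℝ) ≤ s.1 0 := Nat.cast_nonneg _
    exact ⟨by linarith, by linarith, by linarith⟩
  have hfin : ∀ M : ℕ, {s | lyap κ s ≤ M}.Finite := by
    intro M
    refine (finite_level ((M : ℝ) + 1)).subset ?_
    intro s hs
    have hs' : lyap κ s ≤ M := hs
    rw [lyap] at hs'
    have h1 := gfun_nonneg hκ (s.1 1) (decide (s.2 = 0))
    have h2 := gfun_nonneg hκ (s.1 2) (decide (s.2 = 1))
    have h3 := hsum_le_gfun hκ (s.1 1) (decide (s.2 = 0))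
    have h4 := hsum_le_gfun hκ (s.1 2) (decide (s.2 = 1))
    have h0 : (0 : ℝ) ≤ s.1 0 := Nat.cast_nonneg _
    have hB1 : (s.1 0 : ℝ) ≤ ((2 + 2 / κ) ^ 2 + 1) * (s.1 0 : ℝ) := by
      nlinarith [sq_nonneg (2 + 2 / κ)]
    refine ⟨?_, ?_, ?_⟩
    · nlinarith [sq_nonneg (gfun κ (s.1 1) (decide (s.2 = 0))),
        sq_nonneg (gfun κ (s.1 2) (decide (s.2 = 1)))]
    · nlinarith [sq_nonneg (gfun κ (s.1 1) (decide (s.2 = 0)) - 1),
        sq_nonneg (gfun κ (s.1 2) (decide (s.2 = 1)))]
    · nlinarith [sq_nonneg (gfun κ (s.1 1) (decide (s.2 = 0))),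
        sq_nonneg (gfun κ (s.1 2) (decide (s.2 = 1)) - 1)]
  have hzero := not_tendsto_of_lyapunov exNet exQ exQ_offdiag hκ.le (exit_pos hκ) (lyap κ)
    (lyap_nonneg hκ) K (by
      intro s hs
      have hs' : C < (s.1 0 : ℝ) + 2 * gfun κ (s.1 1) (decide (s.2 = 0))
        + 2 * gfun κ (s.1 2) (decide (s.2 = 1)) := not_le.1 hs
      have := gen_le hκ s
      linarith) (by
      obtain ⟨b, hb⟩ := (hKfin.image (lyap κ)).bddAbove
      obtain ⟨M, hM⟩ := exists_nat_ge b
      exact ⟨M, fun s hs => (hb (mem_image_of_mem _ hs)).trans hM⟩) hfin P Z s hZ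
  exact absurd hzero hpos.ne'

end Pool.Agent.Switch98
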